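import Pool.Agent.U671.ST.Derived

/-!
The classical projective planes as Steiner systems with linear blocks.
-/

set_option autoImplicit false

namespace Pool.Agent.U671.ST

open MvPolynomial Finset Pool.Agent.U671.VS

open scoped Classical LinearAlgebra.Projectivization

open Configuration Configuration.ofField Projectivization Matrix in
theorem plane (K : Type) [Field K] [Fintype K] (n : ℕ)
    (hn : n = Fintype.card K ^ 2 + Fintype.card K + 1) :
    ∃ (B : Finset (Finset (Fin n))) (p : Fin n → Fin 3 → K), IsSteiner n (Fintype.card K + 1) 2 B ∧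
      Function.Injective p ∧ ∀ b ∈ B, ∃ g : MvPolynomial (Fin 3) K, g.totalDegree ≤ 1 ∧
        ∀ i, eval (p i) g = 0 ↔ i ∈ b := by
  have hfin : Finite (ℙ K (Fin 3 → K)) := inferInstance
  have := Fintype.ofFinite (ℙ K (Fin 3 → K))
  have hcard : Fintype.card (ℙ K (Fin 3 → K)) = Fintype.card K ^ 2 + Fintype.card K + 1 := by
    have h1 := Projectivization.card_of_finrank K (Fin 3 → K) (n := 3) (by simp)
    rw [Nat.card_eq_fintype_card, Nat.card_eq_fintype_card] at h1
    rw [h1, Finset.sum_range_succ, Finset.sum_range_succ, Finset.sum_range_one]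
    ring
  have horder : ProjectivePlane.order (ℙ K (Fin 3 → K)) (ℙ K (Fin 3 → K)) = Fintype.card K := by
    have h1 := ProjectivePlane.card_points (ℙ K (Fin 3 → K)) (ℙ K (Fin 3 → K))
    rw [hcard] at h1
    nlinarith
  let e : Fin n ≃ ℙ K (Fin 3 → K) := (Fintype.equivFinOfCardEq (hcard.trans hn.symm)).symm
  let blk : ℙ K (Fin 3 → K) → Finset (Fin n) := fun l => univ.filter (fun i => e i ∈ l)
  refine ⟨univ.image blk, fun i => (e i).rep, ⟨?_, ?_⟩, ?_, ?_⟩
  · intro b hb
    obtain ⟨l, -, rfl⟩ := Finset.mem_image.1 hb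
    have h1 := ProjectivePlane.pointCount_eq (ℙ K (Fin 3 → K)) l
    rw [horder] at h1
    rw [← h1, pointCount, Nat.card_eq_fintype_card, Fintype.card_subtype]
    refine Finset.card_bij (fun i _ => e i) ?_ ?_ ?_
    · intro i hi
      rw [Finset.mem_filter] at hi ⊢
      exact ⟨mem_univ _, hi.2⟩
    · intro i _ i' _ h
      exact e.injective h
    · intro x hx
      refine ⟨e.symm x, ?_, e.apply_symm_apply x⟩
      rw [Finset.mem_filter] at hx ⊢
      rw [e.apply_symm_apply]
      exact ⟨mem_univ _, hx.2⟩
  · intro s hs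
    obtain ⟨i, j, hij, rfl⟩ := Finset.card_eq_two.1 hs
    have hne : e i ≠ e j := fun h => hij (e.injective h)
    have hl := HasLines.mkLine_ax (P := ℙ K (Fin 3 → K)) (L := ℙ K (Fin 3 → K)) hne
    refine ⟨blk (HasLines.mkLine hne), ⟨Finset.mem_image_of_mem _ (mem_univ _), ?_⟩, ?_⟩
    · intro x hx
      rw [Finset.mem_insert, Finset.mem_singleton] at hx
      refine Finset.mem_filter.2 ⟨mem_univ _, ?_⟩
      rcases hx with rfl | rfl
      · exact hl.1
      · exact hl.2
    · rintro b ⟨hb, hsb⟩
      obtain ⟨l, -, rfl⟩ := Finset.mem_image.1 hb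
      have h1 : e i ∈ l := (Finset.mem_filter.1 (hsb (Finset.mem_insert_self _ _))).2
      have h2 : e j ∈ l := (Finset.mem_filter.1
        (hsb (Finset.mem_insert_of_mem (Finset.mem_singleton_self _)))).2
      rcases Nondegenerate.eq_or_eq h1 h2 hl.1 hl.2 with h3 | h3
      · exact absurd h3 hne
      · rw [h3]
  · intro i i' h
    have h1 : (e i).rep = (e i').rep := h
    apply e.injective
    rw [← (e i).mk_rep, ← (e i').mk_rep]
    congr 1
  · intro b hb
    obtain ⟨l, -, rfl⟩ := Finset.mem_image.1 hb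
    refine ⟨∑ c, MvPolynomial.C (l.rep c) * X c, ?_, ?_⟩
    · refine (totalDegree_finsetSum _ _).trans (Finset.sup_le fun c _ => ?_)
      refine (totalDegree_mul _ _).trans ?_
      rw [totalDegree_C, totalDegree_X]
    · intro i
      have h1 : i ∈ blk l ↔ e i ∈ l := by
        rw [Finset.mem_filter]
        simp
      have h2 : e i ∈ l ↔ (e i).rep ⬝ᵥ l.rep = 0 := by
        rw [mem_iff]
        conv_lhs => rw [← (e i).mk_rep, ← l.mk_rep]
        rw [orthogonal_mk]
      rw [h1, h2, map_sum, dotProduct]
      simp only [map_mul, eval_C, eval_X]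
      constructor
      · intro h
        rw [← h]
        exact Finset.sum_congr rfl fun c _ => mul_comm _ _
      · intro h
        rw [← h]
        exact Finset.sum_congr rfl fun c _ => mul_comm _ _

end Pool.Agent.U671.ST
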