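import Pool.Agent.U671.ST.Derived

/-!
Averaging over the derived designs of a Steiner system.
-/

set_option autoImplicit false

namespace Pool.Agent.U671.ST

open MvPolynomial Finset Pool.Agent.U671.VS

open scoped Classical

theorem sum_through {n q t : ℕ} (B : Finset (Finset (Fin n))) (hB : ∀ b ∈ B, b.card = q) :
    ∑ R ∈ powersetCard t (univ : Finset (Fin n)), (through B R).card = B.card * q.choose t := by
  have h1 : ∑ R ∈ powersetCard t (univ : Finset (Fin n)), (through B R).card =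
      ∑ R ∈ powersetCard t (univ : Finset (Fin n)), ∑ b ∈ B, if R ⊆ b then 1 else 0 := by
    refine Finset.sum_congr rfl fun R _ => ?_
    rw [through, Finset.card_filter]
  rw [h1, Finset.sum_comm, Finset.card_eq_sum_ones, Finset.sum_mul]
  refine Finset.sum_congr rfl fun b hb => ?_
  rw [one_mul, ← hB b hb, ← Finset.card_powersetCard, ← Finset.card_filter]
  congr 1
  ext R
  rw [Finset.mem_filter, Finset.mem_powersetCard, Finset.mem_powersetCard]
  exact ⟨fun h => ⟨h.2, h.1.2⟩, fun h => ⟨⟨Finset.subset_univ _, h.2⟩, h.1⟩⟩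

theorem sum_sdiff_powerset {n t : ℕ} (b A : Finset (Fin n)) (hA : A ⊆ b) :
    ∑ R ∈ powersetCard t b, (A \ R).card = A.card * (b.card - 1).choose t := by
  have h1 : ∑ R ∈ powersetCard t b, (A \ R).card =
      ∑ R ∈ powersetCard t b, ∑ y ∈ A, if y ∉ R then 1 else 0 := by
    refine Finset.sum_congr rfl fun R _ => ?_
    rw [← Finset.card_filter]
    congr 1
    ext y
    rw [Finset.mem_sdiff, Finset.mem_filter]
  rw [h1, Finset.sum_comm, Finset.card_eq_sum_ones, Finset.sum_mul]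
  refine Finset.sum_congr rfl fun y hy => ?_
  rw [one_mul, ← Finset.card_erase_of_mem (hA hy), ← Finset.card_powersetCard,
    ← Finset.card_filter]
  congr 1
  ext R
  rw [Finset.mem_filter, Finset.mem_powersetCard, Finset.mem_powersetCard, Finset.subset_erase]
  exact ⟨fun h => ⟨⟨h.1.1, h.2⟩, h.1.2⟩, fun h => ⟨⟨h.1.1, h.2⟩, h.1.2⟩⟩

theorem sum_good {n q t : ℕ} (G : Finset (Finset (Fin n))) (hG : ∀ b ∈ G, b.card = q)
    (A : Finset (Fin n) → Finset (Fin n)) (hA : ∀ b ∈ G, A b ⊆ b) :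
    ∑ R ∈ powersetCard t (univ : Finset (Fin n)), ∑ b ∈ through G R, (A b \ R).card =
      (∑ b ∈ G, (A b).card) * (q - 1).choose t := by
  have h1 : ∑ R ∈ powersetCard t (univ : Finset (Fin n)), ∑ b ∈ through G R, (A b \ R).card =
      ∑ R ∈ powersetCard t (univ : Finset (Fin n)), ∑ b ∈ G, if R ⊆ b then (A b \ R).card else 0 := by
    refine Finset.sum_congr rfl fun R _ => ?_
    rw [through, Finset.sum_filter]
  rw [h1, Finset.sum_comm, Finset.sum_mul]
  refine Finset.sum_congr rfl fun b hb => ?_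
  rw [← Finset.sum_filter, ← hG b hb, ← sum_sdiff_powerset b (A b) (hA b hb)]
  refine Finset.sum_congr ?_ fun _ _ => rfl
  ext R
  rw [Finset.mem_filter, Finset.mem_powersetCard, Finset.mem_powersetCard]
  exact ⟨fun h => ⟨h.2, h.1.2⟩, fun h => ⟨⟨Finset.subset_univ _, h.2⟩, h.1⟩⟩

theorem average {n q t : ℕ} (B : Finset (Finset (Fin n))) (hB : ∀ b ∈ B, b.card = q)
    (htq : t < q) (hqn : q ≤ n) (G : Finset (Finset (Fin n))) (hGB : G ⊆ B)
    (A : Finset (Fin n) → Finset (Fin n)) (hA : ∀ b ∈ G, A b ⊆ b) (ρ ε : ℝ) (hε : 0 < ε)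
    (hG : ρ * B.card ≤ G.card) (hAq : ∀ b ∈ G, ε * q ≤ (A b).card) :
    ∃ R : Finset (Fin n), R.card = t ∧
      ρ * ε * ((q : ℝ) - t) * (through B R).card ≤ ∑ b ∈ through G R, ((A b \ R).card : ℝ) := by
  by_contra hcon
  push Not at hcon
  have hne : (powersetCard t (univ : Finset (Fin n))).Nonempty := by
    rw [Finset.powersetCard_nonempty, Finset.card_univ, Fintype.card_fin]
    omega
  have hlt := Finset.sum_lt_sum_of_nonempty hne
    (fun R hR => hcon R (Finset.mem_powersetCard.1 hR).2)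
  have e1 : (∑ R ∈ powersetCard t (univ : Finset (Fin n)), ∑ b ∈ through G R,
      ((A b \ R).card : ℝ)) = (∑ b ∈ G, ((A b).card : ℝ)) * ((q - 1).choose t : ℕ) := by
    have := sum_good (t := t) G (fun b hb => hB b (hGB hb)) A hA
    exact_mod_cast this
  have e2 : (∑ R ∈ powersetCard t (univ : Finset (Fin n)),
      ρ * ε * ((q : ℝ) - t) * (through B R).card) =
      ρ * ε * ((q : ℝ) - t) * ((B.card : ℝ) * (q.choose t : ℕ)) := by
    rw [← Finset.mul_sum]
    have := sum_through (t := t) B hB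
    congr 1
    exact_mod_cast this
  rw [e1, e2] at hlt
  have e3 : ((q - 1).choose t : ℝ) * q = (q.choose t : ℝ) * ((q : ℝ) - t) := by
    have h1 := Nat.choose_mul_succ_eq (q - 1) t
    rw [Nat.sub_add_cancel (by omega)] at h1
    have h2 : (((q - 1).choose t * q : ℕ) : ℝ) = ((q.choose t * (q - t) : ℕ) : ℝ) := by
      exact_mod_cast h1
    rw [Nat.cast_mul, Nat.cast_mul, Nat.cast_sub htq.le] at h2
    exact h2
  have h3 : ρ * B.card * (ε * q) ≤ ∑ b ∈ G, ((A b).card : ℝ) := by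
    calc ρ * B.card * (ε * q) ≤ G.card * (ε * q) :=
          mul_le_mul_of_nonneg_right hG (by positivity)
      _ = ∑ _b ∈ G, ε * q := by rw [Finset.sum_const, nsmul_eq_mul]
      _ ≤ _ := Finset.sum_le_sum hAq
  have h4 : ρ * B.card * (ε * q) * ((q - 1).choose t : ℝ) ≤
      (∑ b ∈ G, ((A b).card : ℝ)) * ((q - 1).choose t : ℝ) :=
    mul_le_mul_of_nonneg_right h3 (by positivity)
  have h5 : ρ * B.card * (ε * q) * ((q - 1).choose t : ℝ) =
      ρ * ε * ((q : ℝ) - t) * ((B.card : ℝ) * (q.choose t : ℝ)) := by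
    calc ρ * B.card * (ε * q) * ((q - 1).choose t : ℝ) =
        ρ * B.card * ε * (((q - 1).choose t : ℝ) * q) := by ring
      _ = _ := by rw [e3]; ring
  rw [h5] at h4
  exact absurd hlt (not_lt.2 h4)

/-- The bound for all blocks. -/
theorem global_bound (d : ℕ) (hd : 1 ≤ d) : ∃ C : ℝ, 1 ≤ C ∧
    ∀ (n q t : ℕ) (B : Finset (Finset (Fin n))), IsSteiner n q (t + 2) B → t + 2 ≤ q → q < n →
    ∀ (p : Fin n → Fin d → ℝ) (D : ℕ) (M ρ ε : ℝ), 1 ≤ D →
      0 < ρ → ρ ≤ 1 → 0 < ε → ε ≤ 1 → Correlates B ∅ p D M ρ ε →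
      ((q : ℝ) - t) ≤ C * (D / (ρ * ε) ^ 3) ^ d ∨
        (ρ * ε) ^ 2 * ((n : ℝ) - t) ≤ C * M * (D / (ρ * ε) ^ 3) ^ d := by
  obtain ⟨C, hC, h⟩ := local_bound d hd
  have h8 : (1 : ℝ) ≤ 8 ^ d := one_le_pow₀ (by norm_num)
  refine ⟨4 * (8 ^ d * C), by nlinarith, ?_⟩
  intro n q t B hB htq hqn p D M ρ ε hD hρ hρ1 hε hε1 hcor
  obtain ⟨G, S, hGB, hG, hS⟩ := hcor
  set A : Finset (Fin n) → Finset (Fin n) := fun b => b.filter (fun i => p i ∈ S b) with hA
  have hAcard : ∀ b ∈ G, ε * q ≤ (A b).card := by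
    intro b hb
    have h1 := (hS b hb).2.2
    rw [Finset.sdiff_empty, hB.1 b (hGB hb)] at h1
    exact h1
  obtain ⟨R, hR, hRa⟩ := average B hB.1 (by omega : t < q) hqn.le G hGB A
    (fun b _ => Finset.filter_subset _ _) ρ ε hε hG hAcard
  have hqt : (0 : ℝ) < (q : ℝ) - t := by
    have : (t : ℝ) < q := by exact_mod_cast (by omega : t < q)
    linarith
  have hρε : 0 < ρ * ε := mul_pos hρ hε
  have hρε1 : ρ * ε ≤ 1 := mul_le_one₀ hρ1 hε.le hε1
  set G' : Finset (Finset (Fin n)) := (through G R).filter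
    (fun b => ρ * ε / 2 * ((q : ℝ) - t) ≤ (A b \ R).card) with hG'
  have hsdc : ∀ b ∈ through B R, ((b \ R).card : ℝ) = (q : ℝ) - t := by
    intro b hb
    have hb' := Finset.mem_filter.1 hb
    rw [Finset.card_sdiff_of_subset hb'.2, hB.1 b hb'.1, hR, Nat.cast_sub (by omega)]
  have hthr : through G R ⊆ through B R := Finset.filter_subset_filter _ hGB
  have hgood : ρ * ε / 2 * (through B R).card ≤ G'.card := by
    have h1 : (∑ b ∈ through G R, ((A b \ R).card : ℝ)) ≤
        G'.card * ((q : ℝ) - t) + (through B R).card * (ρ * ε / 2 * ((q : ℝ) - t)) := by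
      rw [← Finset.sum_filter_add_sum_filter_not (through G R)
        (fun b => ρ * ε / 2 * ((q : ℝ) - t) ≤ (A b \ R).card)]
      refine add_le_add ?_ ?_
      · have h2 : ∀ b ∈ G', ((A b \ R).card : ℝ) ≤ (q : ℝ) - t := by
          intro b hb
          rw [← hsdc b (hthr (Finset.mem_filter.1 hb).1)]
          exact_mod_cast Finset.card_le_card
            (Finset.sdiff_subset_sdiff (Finset.filter_subset _ _) (Finset.Subset.refl _))
        refine (Finset.sum_le_sum h2).trans ?_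
        rw [Finset.sum_const, nsmul_eq_mul]
      · have h2 : ∀ b ∈ (through G R).filter
            (fun b => ¬ ρ * ε / 2 * ((q : ℝ) - t) ≤ (A b \ R).card),
            ((A b \ R).card : ℝ) ≤ ρ * ε / 2 * ((q : ℝ) - t) := by
          intro b hb
          exact (not_le.1 (Finset.mem_filter.1 hb).2).le
        refine (Finset.sum_le_sum h2).trans ?_
        rw [Finset.sum_const, nsmul_eq_mul]
        refine mul_le_mul_of_nonneg_right ?_ (by positivity)
        exact_mod_cast Finset.card_le_card ((Finset.filter_subset _ _).trans hthr)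
    have h2 : (ρ * ε / 2 * (through B R).card) * ((q : ℝ) - t) ≤ G'.card * ((q : ℝ) - t) := by
      have := hRa.trans h1
      linarith
    exact le_of_mul_le_mul_right h2 hqt
  have hfin := h n q t B hB htq hqn R hR p D M (ρ * ε / 2) (ρ * ε / 2) hD (by positivity)
    (by linarith) (by positivity) (by linarith) ⟨G', S, (Finset.filter_subset _ _).trans hthr,
      hgood, by
        intro b hb
        have hb1 := (Finset.mem_filter.1 hb).1
        have hb2 := (Finset.mem_filter.1 hb).2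
        have hbG : b ∈ G := (Finset.mem_filter.1 hb1).1
        obtain ⟨s1, s2, s3⟩ := hS b hbG
        refine ⟨s1, ?_, ?_⟩
        · refine le_trans ?_ s2
          norm_cast
          refine Finset.card_le_card ?_
          intro i hi
          rw [Finset.mem_filter] at hi ⊢
          exact ⟨hi.1, Finset.notMem_empty i, hi.2.2⟩
        · rw [hsdc b (hthr hb1)]
          refine hb2.trans (le_of_eq ?_)
          norm_cast
          congr 1
          ext i
          rw [Finset.mem_sdiff, hA, Finset.mem_filter, Finset.mem_filter, Finset.mem_sdiff]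
          tauto⟩
  have e1 : (D : ℝ) / (ρ * ε / 2 * (ρ * ε / 2) ^ 2) = 8 * (D / (ρ * ε) ^ 3) := by
    field_simp
    ring
  rw [e1, mul_pow] at hfin
  have hx0 : (0 : ℝ) ≤ (D / (ρ * ε) ^ 3) ^ d := by positivity
  rcases hfin with h1 | h1
  · left
    refine h1.trans ?_
    have h2 : (0 : ℝ) ≤ 8 ^ d * C * (D / (ρ * ε) ^ 3) ^ d := by positivity
    calc C * (8 ^ d * (D / (ρ * ε) ^ 3) ^ d) = 8 ^ d * C * (D / (ρ * ε) ^ 3) ^ d := by ring
      _ ≤ 4 * (8 ^ d * C) * (D / (ρ * ε) ^ 3) ^ d := by linarith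
  · right
    calc (ρ * ε) ^ 2 * ((n : ℝ) - t) = 4 * (ρ * ε / 2 * (ρ * ε / 2) * ((n : ℝ) - t)) := by ring
      _ ≤ 4 * (C * M * (8 ^ d * (D / (ρ * ε) ^ 3) ^ d)) := by linarith
      _ = _ := by ring

end Pool.Agent.U671.ST
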