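import Pool.Agent.U671.ST.Average

/-!
Constructible sets in `ℂ^d` are semialgebraic in `ℝ^(2d)`.
-/

set_option autoImplicit false

namespace Pool.Agent.U671.ST

open MvPolynomial Finset Pool.Agent.U671.VS

open scoped Classical

/-- `S ⊆ F^d` is a Boolean combination of equations `g = 0` for finitely many polynomials `g` over the
field `F` for which the sum of the total degrees is at most `D`. -/
def Constructible (F : Type) [Field F] (d D : ℕ) (S : Set (Fin d → F)) : Prop :=
  ∃ (t : ℕ) (g : Fin t → MvPolynomial (Fin d) F) (Φ : Set (Fin t → Prop)),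
    ∑ r, (g r).totalDegree ≤ D ∧ ∀ x, x ∈ S ↔ (fun r => eval x (g r) = 0) ∈ Φ

/-- Real coordinates of a point of `ℂ^d`. -/
noncomputable def coords {d : ℕ} (z : Fin d → ℂ) : Fin (d + d) → ℝ :=
  Fin.append (fun i => (z i).re) (fun i => (z i).im)

/-- Real and imaginary part of `f` are polynomials of degree at most `D`. -/
def RI (d D : ℕ) (f : (Fin d → ℂ) → ℂ) : Prop :=
  ∃ g h : MvPolynomial (Fin (d + d)) ℝ, g.totalDegree ≤ D ∧ h.totalDegree ≤ D ∧
    ∀ z, eval (coords z) g = (f z).re ∧ eval (coords z) h = (f z).im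

theorem RI.mono {d D E : ℕ} {f : (Fin d → ℂ) → ℂ} (h : RI d D f) (hDE : D ≤ E) : RI d E f := by
  obtain ⟨g, h', h1, h2, h3⟩ := h
  exact ⟨g, h', h1.trans hDE, h2.trans hDE, h3⟩

theorem RI.const {d : ℕ} (c : ℂ) : RI d 0 (fun _ => c) :=
  ⟨C c.re, C c.im, by rw [totalDegree_C], by rw [totalDegree_C], fun z => by simp⟩

theorem RI.coord {d : ℕ} (i : Fin d) : RI d 1 (fun z => z i) := by
  refine ⟨X (Fin.castAdd d i), X (Fin.natAdd d i), by rw [totalDegree_X], by rw [totalDegree_X],
    fun z => ?_⟩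
  rw [eval_X, eval_X, coords, Fin.append_left, Fin.append_right]
  exact ⟨rfl, rfl⟩

theorem RI.add {d D : ℕ} {f f' : (Fin d → ℂ) → ℂ} (h : RI d D f) (h' : RI d D f') :
    RI d D (fun z => f z + f' z) := by
  obtain ⟨g, k, h1, h2, h3⟩ := h
  obtain ⟨g', k', h1', h2', h3'⟩ := h'
  refine ⟨g + g', k + k', (totalDegree_add _ _).trans (max_le h1 h1'),
    (totalDegree_add _ _).trans (max_le h2 h2'), fun z => ?_⟩
  rw [map_add, map_add, (h3 z).1, (h3 z).2, (h3' z).1, (h3' z).2, Complex.add_re, Complex.add_im]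
  exact ⟨rfl, rfl⟩

theorem RI.mul {d D E : ℕ} {f f' : (Fin d → ℂ) → ℂ} (h : RI d D f) (h' : RI d E f') :
    RI d (D + E) (fun z => f z * f' z) := by
  obtain ⟨g, k, h1, h2, h3⟩ := h
  obtain ⟨g', k', h1', h2', h3'⟩ := h'
  have hm : ∀ a b : MvPolynomial (Fin (d + d)) ℝ, a.totalDegree ≤ D → b.totalDegree ≤ E →
      (a * b).totalDegree ≤ D + E :=
    fun a b ha hb => (totalDegree_mul _ _).trans (Nat.add_le_add ha hb)
  refine ⟨g * g' - k * k', g * k' + k * g',
    (totalDegree_sub _ _).trans (max_le (hm _ _ h1 h1') (hm _ _ h2 h2')),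
    (totalDegree_add _ _).trans (max_le (hm _ _ h1 h2') (hm _ _ h2 h1')), fun z => ?_⟩
  rw [map_sub, map_add, map_mul, map_mul, map_mul, map_mul, (h3 z).1, (h3 z).2, (h3' z).1,
    (h3' z).2, Complex.mul_re, Complex.mul_im]
  exact ⟨rfl, rfl⟩

theorem RI.pow {d D : ℕ} {f : (Fin d → ℂ) → ℂ} (h : RI d D f) (k : ℕ) :
    RI d (k * D) (fun z => f z ^ k) := by
  induction k with
  | zero =>
    simp only [pow_zero, Nat.zero_mul]
    exact RI.const 1
  | succ k ih =>
    have := ih.mul h
    simp only [pow_succ, Nat.succ_mul]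
    exact this

theorem RI.prod {d : ℕ} (m : Fin d → ℕ) (s : Finset (Fin d)) :
    RI d (∑ i ∈ s, m i) (fun z => ∏ i ∈ s, z i ^ m i) := by
  induction s using Finset.induction_on with
  | empty =>
    simp only [Finset.sum_empty, Finset.prod_empty]
    exact RI.const 1
  | insert a s ha ih =>
    simp only [Finset.sum_insert ha, Finset.prod_insert ha]
    have h1 := (RI.coord a).pow (m a)
    rw [Nat.mul_one] at h1
    exact h1.mul ih

theorem RI.sum {d D : ℕ} {ι : Type} (s : Finset ι) (f : ι → (Fin d → ℂ) → ℂ)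
    (h : ∀ i ∈ s, RI d D (f i)) : RI d D (fun z => ∑ i ∈ s, f i z) := by
  induction s using Finset.induction_on with
  | empty =>
    simp only [Finset.sum_empty]
    exact (RI.const 0).mono (Nat.zero_le _)
  | insert a s ha ih =>
    simp only [Finset.sum_insert ha]
    exact (h a (Finset.mem_insert_self _ _)).add
      (ih fun i hi => h i (Finset.mem_insert_of_mem hi))

theorem RI.poly {d : ℕ} (f : MvPolynomial (Fin d) ℂ) :
    RI d f.totalDegree (fun z => eval z f) := by
  have h : RI d f.totalDegree (fun z => ∑ m ∈ f.support, coeff m f * ∏ i, z i ^ m i) := by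
    refine RI.sum _ _ fun m hm => ?_
    have h1 := (RI.const (d := d) (coeff m f)).mul (RI.prod (fun i => m i) univ)
    refine h1.mono ?_
    rw [Nat.zero_add]
    refine le_trans (le_of_eq ?_) (le_totalDegree hm)
    rw [Finsupp.sum_fintype]
    intro _
    rfl
  refine h.imp fun g ⟨k, h1, h2, h3⟩ => ⟨k, h1, h2, fun z => ?_⟩
  have h4 : (fun z => eval z f) z = (fun z => ∑ m ∈ f.support, coeff m f * ∏ i, z i ^ m i) z :=
    eval_eq' z f
  rw [h4]
  exact h3 z

/-- A constructible set in `ℂ^d` of complexity at most `D` is semialgebraic of complexity at most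
`2 D` in real coordinates. -/
theorem Constructible.semiAlg {d D : ℕ} {S : Set (Fin d → ℂ)} (h : Constructible ℂ d D S) :
    ∃ S' : Set (Fin (d + d) → ℝ), SemiAlg (d + d) (2 * D) S' ∧ ∀ z, coords z ∈ S' ↔ z ∈ S := by
  obtain ⟨t, g, Φ, h1, h2⟩ := h
  choose a b ha hb hab using fun r => RI.poly (g r)
  have key : ∀ x : Fin (d + d) → ℝ, (fun r => eval x (a r) = 0 ∧ eval x (b r) = 0) ∈ Φ ↔
      (fun r : Fin (t + t) => SignType.sign (eval x (Fin.append a b r))) ∈
        {σ : Fin (t + t) → SignType |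
          (fun r => σ (Fin.castAdd t r) = 0 ∧ σ (Fin.natAdd t r) = 0) ∈ Φ} := by
    intro x
    simp only [Set.mem_ofPred_eq, Fin.append_left, Fin.append_right, sign_eq_zero_iff]
  refine ⟨{x | (fun r => eval x (a r) = 0 ∧ eval x (b r) = 0) ∈ Φ},
    ⟨t + t, Fin.append a b, _, ?_, key⟩, ?_⟩
  · rw [Fin.sum_univ_add]
    simp only [Fin.append_left, Fin.append_right]
    have h3 : ∑ r, (a r).totalDegree ≤ ∑ r, (g r).totalDegree := Finset.sum_le_sum fun r _ => ha r
    have h4 : ∑ r, (b r).totalDegree ≤ ∑ r, (g r).totalDegree := Finset.sum_le_sum fun r _ => hb r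
    omega
  · intro z
    rw [h2]
    have h5 : (fun r => eval (coords z) (a r) = 0 ∧ eval (coords z) (b r) = 0) =
        fun r => eval z (g r) = 0 := by
      funext r
      rw [(hab r z).1, (hab r z).2]
      apply propext
      rw [Complex.ext_iff]
      exact Iff.rfl
    change (fun r => eval (coords z) (a r) = 0 ∧ eval (coords z) (b r) = 0) ∈ Φ ↔ _
    rw [h5]

end Pool.Agent.U671.ST
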