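import Pool.Agent.U671.ST.Design

/-!
Steiner systems with blocks correlated with semialgebraic sets: derived designs.
-/

set_option autoImplicit false

namespace Pool.Agent.U671.ST

open MvPolynomial Finset Pool.Agent.U671.VS

open scoped Classical

/-- `B` is a Steiner system `S(n, q, r)` on the points `Fin n`: its members (blocks) have `q`
elements, and each set of `r` points lies in exactly one block. -/
def IsSteiner (n q r : ℕ) (B : Finset (Finset (Fin n))) : Prop :=
  (∀ b ∈ B, b.card = q) ∧ ∀ s : Finset (Fin n), s.card = r → ∃! b, b ∈ B ∧ s ⊆ b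

/-- The blocks through `R`. -/
def through {n : ℕ} (B : Finset (Finset (Fin n))) (R : Finset (Fin n)) : Finset (Finset (Fin n)) :=
  B.filter (fun b => R ⊆ b)

/-- A `2-(v, k, 1)` design has `v ≥ k (k - 1) + 1`. -/
theorem fisher {v b k : ℕ} (B : Fin b → Finset (Fin v)) (h : IsDesign k 1 B) :
    k * (k - 1) + 1 ≤ v := by
  have hk2 := h.two_le
  have hkv := h.lt
  have hrep := Pool.Agent.U671.SD.rep B h.card h.pairs
  -- a block and a point outside
  obtain ⟨j, hj⟩ : (univ.filter (fun j => (⟨0, by omega⟩ : Fin v) ∈ B j ∧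
      (⟨1, by omega⟩ : Fin v) ∈ B j)).Nonempty := by
    rw [← Finset.card_pos, h.pairs _ _ (by intro h; simp at h)]
    norm_num
  obtain ⟨x, hx⟩ : ∃ x, x ∉ B j := by
    by_contra hcon
    push Not at hcon
    have h1 : B j = univ := Finset.eq_univ_iff_forall.2 hcon
    have h2 := h.card j
    rw [h1, Finset.card_univ, Fintype.card_fin] at h2
    omega
  have hle : k ≤ (univ.filter (fun j => x ∈ B j)).card := by
    have hex : ∀ y, x ≠ y → ∃ l, x ∈ B l ∧ y ∈ B l := by
      intro y hxy
      have h1 := h.pairs x y hxy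
      obtain ⟨l, hl⟩ : (univ.filter (fun j => x ∈ B j ∧ y ∈ B j)).Nonempty := by
        rw [← Finset.card_pos, h1]
        norm_num
      exact ⟨l, (Finset.mem_filter.1 hl).2⟩
    have hex' : ∀ y, ∃ l : Fin b, x ≠ y → x ∈ B l ∧ y ∈ B l := by
      intro y
      by_cases hxy : x ≠ y
      · obtain ⟨l, hl⟩ := hex y hxy
        exact ⟨l, fun _ => hl⟩
      · exact ⟨j, fun h => absurd h hxy⟩
    choose f hf using hex'
    rw [← h.card j]
    refine Finset.card_le_card_of_injOn f ?_ ?_
    · intro y hy
      have hxy : x ≠ y := by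
        rintro rfl
        exact hx hy
      exact Finset.mem_coe.2 (Finset.mem_filter.2 ⟨mem_univ _, (hf y hxy).1⟩)
    · intro y hy y' hy' hyy
      by_contra hne
      have hxy : x ≠ y := by
        rintro rfl
        exact hx hy
      have hxy' : x ≠ y' := by
        rintro rfl
        exact hx hy'
      have h1 := h.pairs y y' hne
      rw [Finset.card_eq_one] at h1
      obtain ⟨l, hl⟩ := h1
      have h2 : j = l := by
        rw [← Finset.mem_singleton, ← hl, Finset.mem_filter]
        exact ⟨mem_univ _, hy, hy'⟩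
      have h3 : f y = l := by
        rw [← Finset.mem_singleton, ← hl, Finset.mem_filter]
        refine ⟨mem_univ _, (hf y hxy).2, ?_⟩
        rw [hyy]
        exact (hf y' hxy').2
      apply hx
      rw [h2, ← h3]
      exact (hf y hxy).1
  have h1 := hrep x
  have h2 : k * (k - 1) ≤ (univ.filter (fun j => x ∈ B j)).card * (k - 1) :=
    Nat.mul_le_mul_right _ hle
  omega

/-- The derived design. -/
theorem derived {n q t : ℕ} (B : Finset (Finset (Fin n))) (hB : IsSteiner n q (t + 2) B)
    (htq : t + 2 ≤ q) (hqn : q < n) (R : Finset (Fin n)) (hR : R.card = t)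
    (e : Fin (n - t) ≃ {x : Fin n // x ∉ R}) (f : Fin (through B R).card ≃ through B R) :
    IsDesign (q - t) 1 (fun j => univ.filter (fun i => (e i).1 ∈ (f j).1)) := by
  refine ⟨by omega, by omega, le_rfl, ?_, ?_⟩
  · intro j
    have hj := Finset.mem_filter.1 (f j).2
    have h1 : (univ.filter (fun i => (e i).1 ∈ (f j).1)).card = ((f j).1 \ R).card := by
      refine Finset.card_bij (fun i _ => (e i).1) ?_ ?_ ?_
      · intro i hi
        rw [Finset.mem_sdiff]
        exact ⟨(Finset.mem_filter.1 hi).2, (e i).2⟩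
      · intro i _ i' _ hii
        exact e.injective (Subtype.ext hii)
      · intro y hy
        rw [Finset.mem_sdiff] at hy
        refine ⟨e.symm ⟨y, hy.2⟩, ?_, ?_⟩
        · rw [Finset.mem_filter, Equiv.apply_symm_apply]
          exact ⟨mem_univ _, hy.1⟩
        · rw [Equiv.apply_symm_apply]
    rw [h1, Finset.card_sdiff_of_subset hj.2, hB.1 _ hj.1, hR]
  · intro x y hxy
    have hexy : (e x).1 ≠ (e y).1 := fun h => hxy (e.injective (Subtype.ext h))
    set s : Finset (Fin n) := insert (e x).1 (insert (e y).1 R) with hs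
    have hscard : s.card = t + 2 := by
      rw [hs, Finset.card_insert_of_notMem, Finset.card_insert_of_notMem (e y).2, hR]
      rw [Finset.mem_insert, not_or]
      exact ⟨hexy, (e x).2⟩
    obtain ⟨b, ⟨hbB, hsb⟩, huniq⟩ := hB.2 s hscard
    have hRb : R ⊆ b := ((Finset.subset_insert _ _).trans (Finset.subset_insert _ _)).trans hsb
    have hbt : b ∈ through B R := Finset.mem_filter.2 ⟨hbB, hRb⟩
    rw [Finset.card_eq_one]
    refine ⟨f.symm ⟨b, hbt⟩, ?_⟩
    ext j
    rw [Finset.mem_filter, Finset.mem_filter, Finset.mem_filter, Finset.mem_singleton,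
      Equiv.eq_symm_apply]
    have hj := Finset.mem_filter.1 (f j).2
    constructor
    · rintro ⟨_, ⟨_, h1⟩, _, h2⟩
      apply Subtype.ext
      refine huniq _ ⟨hj.1, ?_⟩
      rw [hs]
      exact Finset.insert_subset h1 (Finset.insert_subset h2 hj.2)
    · intro h
      have h1 : (f j).1 = b := congrArg Subtype.val h
      rw [h1]
      refine ⟨mem_univ _, ⟨mem_univ _, ?_⟩, mem_univ _, ?_⟩
      · exact hsb (Finset.mem_insert_self _ _)
      · exact hsb (Finset.mem_insert_of_mem (Finset.mem_insert_self _ _))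

/-- `n - t ≥ (q - t) (q - t - 1) + 1`. -/
theorem steiner_fisher {n q t : ℕ} (B : Finset (Finset (Fin n))) (hB : IsSteiner n q (t + 2) B)
    (htq : t + 2 ≤ q) (hqn : q < n) : (q - t) * (q - t - 1) + 1 ≤ n - t := by
  obtain ⟨R, -, hR⟩ := Finset.exists_subset_card_eq
    (show t ≤ (Finset.univ : Finset (Fin n)).card by rw [Finset.card_univ, Fintype.card_fin]; omega)
  have hcard : Fintype.card {x : Fin n // x ∉ R} = n - t := by
    rw [Fintype.card_subtype_compl, Fintype.card_fin, Fintype.card_coe, hR]
  exact fisher _ (derived B hB htq hqn R hR (Fintype.equivFinOfCardEq hcard).symm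
    (through B R).equivFin.symm)

/-- For at least `ρ |T|` of the blocks `b` in `T` there is a semialgebraic set `S b` of complexity at
most `D` which contains at most `M` of the points outside `R`, and at least `ε |b \ R|` of the points
of `b` outside `R`. -/
def Correlates {n d : ℕ} (T : Finset (Finset (Fin n))) (R : Finset (Fin n)) (p : Fin n → Fin d → ℝ)
    (D : ℕ) (M ρ ε : ℝ) : Prop :=
  ∃ (G : Finset (Finset (Fin n))) (S : Finset (Fin n) → Set (Fin d → ℝ)), G ⊆ T ∧
    ρ * T.card ≤ G.card ∧ ∀ b ∈ G, SemiAlg d D (S b) ∧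
      ((univ.filter (fun i => i ∉ R ∧ p i ∈ S b)).card : ℝ) ≤ M ∧
      ε * (b \ R).card ≤ ((b \ R).filter (fun i => p i ∈ S b)).card

theorem local_bound (d : ℕ) (hd : 1 ≤ d) : ∃ C : ℝ, 1 ≤ C ∧
    ∀ (n q t : ℕ) (B : Finset (Finset (Fin n))), IsSteiner n q (t + 2) B → t + 2 ≤ q → q < n →
    ∀ (R : Finset (Fin n)), R.card = t → ∀ (p : Fin n → Fin d → ℝ) (D : ℕ) (M ρ ε : ℝ), 1 ≤ D →
      0 < ρ → ρ ≤ 1 → 0 < ε → ε ≤ 1 → Correlates (through B R) R p D M ρ ε →
      ((q : ℝ) - t) ≤ C * (D / (ρ * ε ^ 2)) ^ d ∨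
        ρ * ε * ((n : ℝ) - t) ≤ C * M * (D / (ρ * ε ^ 2)) ^ d := by
  obtain ⟨C, hC, h⟩ := part1 d hd
  refine ⟨C, hC, ?_⟩
  intro n q t B hB htq hqn R hR p D M ρ ε hD hρ hρ1 hε hε1 hcor
  obtain ⟨G, S, hGT, hG, hS⟩ := hcor
  have hcard : Fintype.card {x : Fin n // x ∉ R} = n - t := by
    rw [Fintype.card_subtype_compl, Fintype.card_fin, Fintype.card_coe, hR]
  set e : Fin (n - t) ≃ {x : Fin n // x ∉ R} := (Fintype.equivFinOfCardEq hcard).symm with he
  set f : Fin (through B R).card ≃ through B R := (through B R).equivFin.symm with hf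
  have hdes := derived B hB htq hqn R hR e f
  have hcast1 : ((q - t : ℕ) : ℝ) = (q : ℝ) - t := by rw [Nat.cast_sub (by omega)]
  have hcast2 : ((n - t : ℕ) : ℝ) = (n : ℝ) - t := by rw [Nat.cast_sub (by omega)]
  have hmain := h (n - t) (through B R).card (q - t) 1 _ hdes (fun i => p (e i).1) D M ρ ε hD hρ hρ1
    hε hε1 ?_
  · rw [hcast1, hcast2] at hmain
    exact hmain
  · have hFG : (univ.filter (fun j => (f j).1 ∈ G)).card = G.card := by
      refine Finset.card_bij (fun j _ => (f j).1) ?_ ?_ ?_
      · intro j hj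
        exact (Finset.mem_filter.1 hj).2
      · intro j _ j' _ hjj
        exact f.injective (Subtype.ext hjj)
      · intro b hb
        refine ⟨f.symm ⟨b, hGT hb⟩, ?_, ?_⟩
        · rw [Finset.mem_filter, Equiv.apply_symm_apply]
          exact ⟨mem_univ _, hb⟩
        · rw [Equiv.apply_symm_apply]
    refine ⟨univ.filter (fun j => (f j).1 ∈ G), fun j => S (f j).1, ?_, ?_⟩
    · rw [hFG]
      exact hG
    · intro j hj
      have hjG := (Finset.mem_filter.1 hj).2
      obtain ⟨h1, h2, h3⟩ := hS _ hjG
      have hj' := Finset.mem_filter.1 (f j).2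
      refine ⟨h1, ?_, ?_⟩
      · refine le_trans (le_of_eq ?_) h2
        norm_cast
        refine Finset.card_bij (fun i _ => (e i).1) ?_ ?_ ?_
        · intro i hi
          rw [Finset.mem_filter]
          exact ⟨mem_univ _, (e i).2, (Finset.mem_filter.1 hi).2⟩
        · intro i _ i' _ hii
          exact e.injective (Subtype.ext hii)
        · intro y hy
          rw [Finset.mem_filter] at hy
          refine ⟨e.symm ⟨y, hy.2.1⟩, ?_, ?_⟩
          · rw [Finset.mem_filter]
            refine ⟨mem_univ _, ?_⟩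
            change p (e (e.symm ⟨y, hy.2.1⟩)).1 ∈ S (f j).1
            rw [Equiv.apply_symm_apply]
            exact hy.2.2
          · rw [Equiv.apply_symm_apply]
      · have hbc : ((f j).1 \ R).card = q - t := by
          rw [Finset.card_sdiff_of_subset hj'.2, hB.1 _ hj'.1, hR]
        rw [hbc] at h3
        refine h3.trans (le_of_eq ?_)
        norm_cast
        symm
        refine Finset.card_bij (fun i _ => (e i).1) ?_ ?_ ?_
        · intro i hi
          rw [Finset.mem_filter, Finset.mem_filter] at hi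
          rw [Finset.mem_filter, Finset.mem_sdiff]
          exact ⟨⟨hi.1.2, (e i).2⟩, hi.2⟩
        · intro i _ i' _ hii
          exact e.injective (Subtype.ext hii)
        · intro y hy
          rw [Finset.mem_filter, Finset.mem_sdiff] at hy
          refine ⟨e.symm ⟨y, hy.1.2⟩, ?_, ?_⟩
          · rw [Finset.mem_filter, Finset.mem_filter]
            refine ⟨⟨mem_univ _, ?_⟩, ?_⟩
            · rw [Equiv.apply_symm_apply]
              exact hy.1.1
            · change p (e (e.symm ⟨y, hy.1.2⟩)).1 ∈ S (f j).1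
              rw [Equiv.apply_symm_apply]
              exact hy.2
          · rw [Equiv.apply_symm_apply]

end Pool.Agent.U671.ST
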