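import Pool.Agent.U671.VS.Defs
import Pool.Agent.U671.SD.Cells
import Pool.Agent.U671.SD.Count
import Pool.Agent.U671.SD.Sharp

/-!
The bound for `2`-designs whose blocks are correlated with semialgebraic sets (as in
`Results/MP_c38931_co/SemialgebraicBlocks.lean`).
-/

set_option autoImplicit false

namespace Pool.Agent.U671.ST

open MvPolynomial Finset Pool.Agent.U671.VS

open scoped Classical

/-- A `2-(v, k, lam)` design with `b` blocks, `2 ≤ k < v` and `lam ≥ 1` (repeated blocks are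
allowed). It is symmetric if `b = v`. -/
structure IsDesign {v b : ℕ} (k lam : ℕ) (B : Fin b → Finset (Fin v)) : Prop where
  two_le : 2 ≤ k
  lt : k < v
  one_le : 1 ≤ lam
  card : ∀ j, (B j).card = k
  pairs : ∀ x y, x ≠ y → (univ.filter (fun j => x ∈ B j ∧ y ∈ B j)).card = lam

/-- For the points placed at `x i ∈ ℝ^d`, `i < v`: for at least `ρ b` of the `b` blocks `B j` there
is a semialgebraic set `S j` of complexity at most `D` that contains at most `M` of the points, but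
at least `ε k` points of the block. -/
def Correlated {v b d : ℕ} (k : ℕ) (B : Fin b → Finset (Fin v)) (x : Fin v → Fin d → ℝ) (D : ℕ)
    (M ρ ε : ℝ) : Prop :=
  ∃ (F : Finset (Fin b)) (S : Fin b → Set (Fin d → ℝ)), ρ * b ≤ F.card ∧ ∀ j ∈ F,
    SemiAlg d D (S j) ∧ ((univ.filter (fun i => x i ∈ S j)).card : ℝ) ≤ M ∧
      ε * k ≤ ((B j).filter (fun i => x i ∈ S j)).card

open Pool.Agent.R98.EQ Pool.Agent.U671.SD in
theorem part1 (d : ℕ) (hd : 1 ≤ d) : ∃ C : ℝ, 1 ≤ C ∧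
    ∀ (v b k lam : ℕ) (B : Fin b → Finset (Fin v)), IsDesign k lam B →
    ∀ (x : Fin v → Fin d → ℝ) (D : ℕ) (M ρ ε : ℝ), 1 ≤ D → 0 < ρ → ρ ≤ 1 → 0 < ε → ε ≤ 1 →
      Correlated k B x D M ρ ε →
      (k : ℝ) ≤ C * (D / (ρ * ε ^ 2)) ^ d ∨ ρ * ε * v ≤ C * M * (D / (ρ * ε ^ 2)) ^ d := by
  obtain ⟨K, hK, hcells⟩ := cells d hd
  have hK1 : (1 : ℝ) ≤ K := by exact_mod_cast hK
  refine ⟨4 * K * (64 * K) ^ d, ?_, ?_⟩
  · have : (1 : ℝ) ≤ (64 * K) ^ d := one_le_pow₀ (by linarith)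
    nlinarith
  intro v b k lam B hB x D M ρ ε hD hρ hρ1 hε hε1 hcor
  obtain ⟨F, S, hF, hS⟩ := hcor
  have hk2 := hB.two_le
  have hkv := hB.lt
  have hv : 2 ≤ v := by omega
  set δ : ℝ := ρ * ε ^ 2 with hδ
  have hδ0 : 0 < δ := by positivity
  have hδ1 : δ ≤ 1 := by
    rw [hδ]
    have : ε ^ 2 ≤ 1 := pow_le_one₀ hε.le hε1
    exact mul_le_one₀ hρ1 (by positivity) this
  set θ : ℝ := D / δ with hθ
  have hD1 : (1 : ℝ) ≤ D := by exact_mod_cast hD
  have hθD : (D : ℝ) ≤ θ := by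
    rw [hθ, le_div_iff₀ hδ0]
    nlinarith
  have hθ1 : 1 ≤ θ := hD1.trans hθD
  have hθδ : θ * δ = D := by rw [hθ]; field_simp
  -- the bound for the numbers of points in the sets
  set M' : ℕ := ⌊M⌋₊ with hM'
  by_cases hcase : ρ * ε * v ≤ 4 * K * (64 * K) ^ d * M * θ ^ d
  · exact Or.inr hcase
  left
  push Not at hcase
  -- `M ≥ 1`
  have hb : 0 < b := by
    have h1 := hB.pairs ⟨0, by omega⟩ ⟨1, by omega⟩ (by intro h; simp at h)
    have h2 : 0 < (univ.filter (fun j => (⟨0, by omega⟩ : Fin v) ∈ B j ∧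
        (⟨1, by omega⟩ : Fin v) ∈ B j)).card := by
      rw [h1]
      exact hB.one_le
    obtain ⟨j, _⟩ := Finset.card_pos.1 h2
    exact j.pos
  have hF0 : F.Nonempty := by
    rw [← Finset.card_pos]
    have : (0 : ℝ) < F.card := lt_of_lt_of_le (mul_pos hρ (by exact_mod_cast hb)) hF
    exact_mod_cast this
  have hM1 : 1 ≤ M := by
    obtain ⟨j, hj⟩ := hF0
    obtain ⟨_, h1, h2⟩ := hS j hj
    have h3 : (0 : ℝ) < ((B j).filter (fun i => x i ∈ S j)).card :=
      lt_of_lt_of_le (mul_pos hε (by exact_mod_cast (by omega : 0 < k))) h2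
    have h4 : 0 < ((B j).filter (fun i => x i ∈ S j)).card := by exact_mod_cast h3
    have h5 : ((B j).filter (fun i => x i ∈ S j)).card ≤ (univ.filter (fun i => x i ∈ S j)).card :=
      Finset.card_le_card (Finset.filter_subset_filter _ (Finset.subset_univ _))
    have h6 : (1 : ℝ) ≤ (univ.filter (fun i => x i ∈ S j)).card := by exact_mod_cast (by omega)
    linarith
  have hM'1 : 1 ≤ M' := by rw [hM', Nat.one_le_floor_iff]; exact hM1
  have hM'M : (M' : ℝ) ≤ M := Nat.floor_le (by linarith)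
  -- the number of halvings
  obtain ⟨n, hn1, hn2⟩ := exists_nat_pow_near (x := 32 * K * θ) (y := (2 : ℝ)) (by nlinarith)
    (by norm_num)
  set L : ℕ := n + 1 with hL
  have hL1 : 32 * K * θ ≤ 2 ^ L := hn2.le
  have hL2 : (2 : ℝ) ^ L ≤ 64 * K * θ := by rw [hL, pow_succ]; linarith
  have hDL : 2 * D ≤ 2 ^ L := by
    have : (2 * D : ℝ) ≤ 2 ^ L := by nlinarith
    exact_mod_cast this
  obtain ⟨κ, hκf, c, h1, h2, h3, h4⟩ := hcells v x L D hDL
  -- the counting lemma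
  set S' : Fin b → Finset (Fin v) := fun j => univ.filter (fun i => x i ∈ S j) with hS'
  have hNr : ((2 ^ (d * L) : ℕ) : ℝ) = (2 ^ L) ^ d := by
    rw [Nat.cast_pow, Nat.cast_ofNat, ← pow_mul, Nat.mul_comm L d]
  have htr : ((K * (2 * D) * 2 ^ ((d - 1) * L) : ℕ) : ℝ) = 2 * K * D * (2 ^ L) ^ (d - 1) := by
    rw [Nat.cast_mul, Nat.cast_mul, Nat.cast_mul, Nat.cast_pow, Nat.cast_ofNat, ← pow_mul,
      Nat.mul_comm L (d - 1)]
    ring
  have hpd : ((2 : ℝ) ^ L) ^ d = (2 ^ L) ^ (d - 1) * 2 ^ L := by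
    rw [← pow_succ, Nat.sub_add_cancel hd]
  have hp0 : (0 : ℝ) < (2 ^ L) ^ (d - 1) := by positivity
  have hcount := Pool.Agent.U671.SD.count B hB.card hB.pairs hk2 hv hB.one_le c K (2 ^ (d * L)) M'
    (K * (2 * D) * 2 ^ ((d - 1) * L)) hK Nat.one_le_two_pow hM'1 h1 h2 h3 S' F
    (by
      intro j hj
      rw [hM', Nat.le_floor_iff (by linarith)]
      exact (hS j hj).2.1)
    (by
      intro j hj
      obtain ⟨⟨t, g, Φ, hg1, hg2⟩, _, _⟩ := hS j hj
      refine le_trans (Finset.card_le_card ?_) (h4 (List.ofFn g) (by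
        unfold degSum
        rw [List.map_ofFn, List.sum_ofFn]
        exact hg1))
      intro s hs
      rw [Finset.mem_filter] at hs ⊢
      obtain ⟨_, i, i', hi, hi', hiS, hiS'⟩ := hs
      refine ⟨mem_univ _, i, i', hi, hi', ?_⟩
      by_contra hcon
      have h5 : (fun r => SignType.sign (eval (x i) (g r))) =
          fun r => SignType.sign (eval (x i') (g r)) := by
        funext r
        by_contra h6
        exact hcon ⟨g r, List.mem_ofFn.2 ⟨r, rfl⟩, h6⟩
      rw [hS', Finset.mem_filter] at hiS hiS'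
      apply hiS'
      refine ⟨mem_univ _, ?_⟩
      rw [hg2 (x i'), ← h5, ← hg2 (x i)]
      exact hiS.2)
    ρ ε hρ hε hF
    (by
      intro j hj
      refine (hS j hj).2.2.trans ?_
      have : ((B j).filter (fun i => x i ∈ S j)) ⊆ S' j ∩ B j := by
        intro i hi
        rw [Finset.mem_filter] at hi
        rw [Finset.mem_inter, hS', Finset.mem_filter]
        exact ⟨⟨mem_univ _, hi.2⟩, hi.1⟩
      exact_mod_cast Finset.card_le_card this)
    (by
      rw [hNr, htr, hpd, ← hδ]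
      have h5 : 32 * K * D ≤ 2 ^ L * δ := by
        rw [← hθδ]
        have := mul_le_mul_of_nonneg_right hL1 hδ0.le
        linarith
      have := mul_le_mul_of_nonneg_left h5 hp0.le
      linarith)
    (by
      rw [hNr]
      refine le_trans ?_ hcase.le
      have h5 : ((2 : ℝ) ^ L) ^ d ≤ (64 * K * θ) ^ d := pow_le_pow_left₀ (by positivity) hL2 d
      rw [mul_pow] at h5
      calc 4 * (K : ℝ) * (2 ^ L) ^ d * M' ≤ 4 * (K : ℝ) * ((64 * K) ^ d * θ ^ d) * M := by
            gcongr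
        _ = 4 * K * (64 * K) ^ d * M * θ ^ d := by ring)
  rw [htr, ← hδ] at hcount
  have h5 : (k : ℝ) ≤ 16 * K * θ * (2 ^ L) ^ (d - 1) := by
    have h6 : k * δ ≤ (16 * K * θ * (2 ^ L) ^ (d - 1)) * δ := by
      refine hcount.trans (le_of_eq ?_)
      rw [← hθδ]
      ring
    exact le_of_mul_le_mul_right h6 hδ0
  refine h5.trans ?_
  have h6 : ((2 : ℝ) ^ L) ^ (d - 1) ≤ (64 * K * θ) ^ (d - 1) := pow_le_pow_left₀ (by positivity) hL2 _
  have h7 : (64 * K * θ) ^ (d - 1) * (64 * K * θ) = (64 * K) ^ d * θ ^ d := by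
    rw [← pow_succ, Nat.sub_add_cancel hd, mul_pow]
  have h8 : (0 : ℝ) ≤ (64 * K) ^ d * θ ^ d := by positivity
  calc 16 * K * θ * (2 ^ L) ^ (d - 1) ≤ 16 * K * θ * (64 * K * θ) ^ (d - 1) := by gcongr
    _ = ((64 * K * θ) ^ (d - 1) * (64 * K * θ)) / 4 := by ring
    _ = (64 * K) ^ d * θ ^ d / 4 := by rw [h7]
    _ ≤ 4 * K * (64 * K) ^ d * θ ^ d := by nlinarith

end Pool.Agent.U671.ST
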