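import Mathlib

/-!
Countable domains of characteristic zero embed into `ℂ`.
-/

set_option autoImplicit false

namespace Pool.Agent.U671.ST

open Cardinal

theorem field_emb (K : Type) [Field K] [CharZero K] [Countable K] : Nonempty (K →+* ℂ) := by
  let P := MvPolynomial ℝ K
  let Q := FractionRing P
  let L := AlgebraicClosure Q
  have hP : #P = 𝔠 := by
    rw [MvPolynomial.cardinalMk_eq_max, Cardinal.mk_real]
    have h1 : #K ≤ ℵ₀ := Cardinal.mk_le_aleph0
    rw [sup_eq_right.2 (h1.trans aleph0_le_continuum), sup_eq_left.2 aleph0_le_continuum]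
  have hQ : #Q = 𝔠 := by rw [← hP]; exact IsFractionRing.cardinalMk P Q
  have hL1 : #L ≤ 𝔠 := by
    have := Algebra.IsAlgebraic.cardinalMk_le_max Q L
    rw [hQ, sup_eq_left.2 aleph0_le_continuum] at this
    exact this
  have hL2 : 𝔠 ≤ #L := by
    rw [← hQ]
    exact Cardinal.mk_le_of_injective (algebraMap Q L).injective
  have hL : #L = 𝔠 := le_antisymm hL1 hL2
  have : CharZero L :=
    charZero_of_injective_ringHom (f := (algebraMap Q L).comp ((algebraMap P Q).comp
      (algebraMap K P))) (RingHom.injective _)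
  obtain ⟨e⟩ := IsAlgClosed.ringEquiv_of_equiv_of_charZero (K := L) (L := ℂ)
    (by rw [hL]; exact aleph0_lt_continuum)
    (Cardinal.eq.1 (by rw [hL, Cardinal.mk_complex]))
  exact ⟨e.toRingHom.comp ((algebraMap Q L).comp ((algebraMap P Q).comp (algebraMap K P)))⟩

/-- For a countable subset `S` of a field of characteristic zero there is a subring `A` containing
`S` which embeds into `ℂ`. -/
theorem subring_emb (F : Type) [Field F] [CharZero F] (S : Set F) (hS : S.Countable) :
    ∃ (A : Subalgebra ℤ F) (ψ : A →+* ℂ), S ⊆ A ∧ Function.Injective ψ := by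
  let A := Algebra.adjoin ℤ S
  have hA : #A ≤ ℵ₀ := by
    refine (Algebra.cardinalMk_adjoin_le (R := ℤ) S).trans ?_
    rw [Cardinal.mk_int]
    have h1 : #S ≤ ℵ₀ := hS.le_aleph0
    simp [h1]
  have : Countable A := Cardinal.mk_le_aleph0_iff.1 hA
  let K := FractionRing A
  have hK : #K ≤ ℵ₀ := by
    rw [IsFractionRing.cardinalMk A K]
    exact hA
  have : Countable K := Cardinal.mk_le_aleph0_iff.1 hK
  have : CharZero A := charZero_of_injective_algebraMap (R := ℤ) (A := A) (by
    intro a b hab
    have h1 : ((algebraMap ℤ A a : A) : F) = ((algebraMap ℤ A b : A) : F) := by rw [hab]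
    have h2 : (a : F) = (b : F) := by simpa using h1
    exact_mod_cast h2)
  have : CharZero K := charZero_of_injective_algebraMap (IsFractionRing.injective A K)
  obtain ⟨f⟩ := field_emb K
  exact ⟨A, f.comp (algebraMap A K), Algebra.subset_adjoin,
    f.injective.comp (IsFractionRing.injective A K)⟩

end Pool.Agent.U671.ST
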