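import Pool.Agent.U671.VS.Count

/-!
Counting pairs of points in cells which are separated by blocks: if every point is in `r` blocks,
every pair of points in at most `lam ≤ r / 2` blocks, and the blocks are described, up to some errors,
by sets which cut few cells, then there are few cells.
-/

set_option autoImplicit false

namespace Pool.Agent.U671.ST

open Finset

open scoped Classical

variable {V ι : Type} [Fintype V] [Fintype ι]

theorem sep (B S : ι → Finset V) (r lam : ℕ)
    (hr : ∀ x, (univ.filter (fun j => x ∈ B j)).card = r)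
    (hl : ∀ x y, x ≠ y → (univ.filter (fun j => x ∈ B j ∧ y ∈ B j)).card ≤ lam)
    {κ : Type} [Fintype κ] (c : V → Option κ) (K N t : ℕ) (hK : 1 ≤ K) (hN : 1 ≤ N)
    (hκ : Fintype.card κ ≤ K * N) (hnone : (univ.filter (fun i => c i = none)).card ≤ K * N)
    (hcell : ∀ s, (univ.filter (fun i => c i = some s)).card * N ≤ Fintype.card V)
    (ht : ∀ j, (univ.filter (fun s : κ => ∃ i i', c i = some s ∧ c i' = some s ∧
      i ∈ S j ∧ i' ∉ S j)).card ≤ t)
    (hE : 16 * K * ∑ j, ((B j \ S j).card + (S j \ B j).card) ≤ r * Fintype.card V)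
    (h16 : 16 * K * N ≤ Fintype.card V) (h2 : 2 * lam ≤ r) :
    r ^ 2 * Fintype.card V * N ≤
      64 * K ^ 2 * Fintype.card ι * t * (r * N + lam * Fintype.card V) := by
  set v : ℕ := Fintype.card V with hv
  set cl : κ → Finset V := fun s => univ.filter (fun i => c i = some s) with hcl
  set no : Finset V := univ.filter (fun i => c i = none) with hno
  set W : ι → Finset κ := fun j => univ.filter (fun s : κ => ∃ i i', c i = some s ∧
    c i' = some s ∧ i ∈ S j ∧ i' ∉ S j) with hW
  set T : ι → ℕ := fun j => ∑ s ∈ W j, (B j ∩ cl s).card with hT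
  have hdis : ∀ s s' : κ, s ≠ s' → Disjoint (cl s) (cl s') := by
    intro s s' hss
    rw [Finset.disjoint_left]
    intro i hi hi'
    rw [hcl, Finset.mem_filter] at hi hi'
    rw [hi.2] at hi'
    exact hss (Option.some.inj hi'.2)
  -- sizes of the cells
  have hclsum : ∑ s, (cl s).card ≤ v := by
    have h3 : ∑ s, (cl s).card = (univ.biUnion cl).card := by
      rw [Finset.card_biUnion]
      intro s _ s' _ hss
      exact hdis s s' hss
    rw [h3]
    exact Finset.card_le_univ _
  have hcllow : v ≤ K * N + ∑ s, (cl s).card := by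
    have h3 : (univ : Finset V) ⊆ no ∪ univ.biUnion cl := by
      intro i _
      rw [Finset.mem_union]
      rcases hci : c i with _ | s
      · left
        rw [hno, Finset.mem_filter]
        exact ⟨mem_univ _, hci⟩
      · right
        rw [Finset.mem_biUnion]
        refine ⟨s, mem_univ _, ?_⟩
        rw [hcl, Finset.mem_filter]
        exact ⟨mem_univ _, hci⟩
    have h4 := (Finset.card_le_card h3).trans (Finset.card_union_le _ _)
    have h5 : (univ.biUnion cl).card ≤ ∑ s, (cl s).card := Finset.card_biUnion_le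
    rw [Finset.card_univ] at h4
    omega
  have hsymm : ∀ j, ∑ s, (((B j \ S j) ∩ cl s).card + ((S j \ B j) ∩ cl s).card) ≤
      (B j \ S j).card + (S j \ B j).card := by
    intro j
    have h3 : ∀ X : Finset V, ∑ s, (X ∩ cl s).card ≤ X.card := by
      intro X
      have h4 : ∑ s, (X ∩ cl s).card = (univ.biUnion (fun s => X ∩ cl s)).card := by
        rw [Finset.card_biUnion]
        intro s _ s' _ hss
        exact (hdis s s' hss).mono Finset.inter_subset_right Finset.inter_subset_right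
      rw [h4]
      refine Finset.card_le_card ?_
      intro x hx
      rw [Finset.mem_biUnion] at hx
      obtain ⟨s, _, hs⟩ := hx
      exact (Finset.mem_inter.1 hs).1
    rw [Finset.sum_add_distrib]
    exact Nat.add_le_add (h3 _) (h3 _)
  -- real versions
  have hN0 : (0 : ℝ) < N := by exact_mod_cast hN
  have hK0 : (1 : ℝ) ≤ K := by exact_mod_cast hK
  have hcl2 : ∀ s, ((cl s).card : ℝ) * N ≤ v := by
    intro s
    exact_mod_cast hcell s
  have hsq : ∀ s, (∑ j, ((B j ∩ cl s).card : ℝ) ^ 2) ≤ r * (cl s).card +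
      lam * ((cl s).card : ℝ) ^ 2 := by
    intro s
    have h := Pool.Agent.U671.VS.pairs B r lam hr hl (cl s)
    exact_mod_cast h
  have hinc : ∀ s, (∑ j, ((B j ∩ cl s).card : ℝ)) = r * (cl s).card := by
    intro s
    have h := Pool.Agent.U671.VS.inc B (cl s)
    rw [Finset.sum_congr rfl (fun x _ => hr x), Finset.sum_const, smul_eq_mul] at h
    have h3 : (∑ j, ((B j ∩ cl s).card : ℝ)) = ((cl s).card * r : ℕ) := by exact_mod_cast h
    rw [h3]
    push_cast
    ring
  -- lower bound for the number of separated pairs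
  have hsd : ∀ j s, ((cl s \ B j).card : ℝ) = (cl s).card - (B j ∩ cl s).card := by
    intro j s
    have h3 := Finset.card_sdiff_add_card_inter (cl s) (B j)
    rw [Finset.inter_comm] at h3
    rw [← h3]
    push_cast
    ring
  have hlow : ∀ s, ((r : ℝ) - lam) * ((cl s).card : ℝ) ^ 2 - r * (cl s).card ≤
      ∑ j, ((B j ∩ cl s).card : ℝ) * ((cl s \ B j).card : ℝ) := by
    intro s
    have h3 : ∑ j, ((B j ∩ cl s).card : ℝ) * ((cl s \ B j).card : ℝ) =
        (cl s).card * (∑ j, ((B j ∩ cl s).card : ℝ)) - ∑ j, ((B j ∩ cl s).card : ℝ) ^ 2 := by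
      rw [Finset.mul_sum, ← Finset.sum_sub_distrib]
      refine Finset.sum_congr rfl fun j _ => ?_
      rw [hsd]
      ring
    rw [h3, hinc]
    have h4 := hsq s
    nlinarith
  -- upper bound
  have hup : ∀ j s, ((B j ∩ cl s).card : ℝ) * ((cl s \ B j).card : ℝ) * N ≤
      v * ((if s ∈ W j then ((B j ∩ cl s).card : ℝ) else 0) +
        (((B j \ S j) ∩ cl s).card + ((S j \ B j) ∩ cl s).card)) := by
    intro j s
    have hv0 : (0 : ℝ) ≤ v := Nat.cast_nonneg _
    have hb1 : ((cl s \ B j).card : ℝ) ≤ (cl s).card := by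
      exact_mod_cast Finset.card_le_card Finset.sdiff_subset
    have hb2 : ((B j ∩ cl s).card : ℝ) ≤ (cl s).card := by
      exact_mod_cast Finset.card_le_card Finset.inter_subset_right
    have hc1 := hcl2 s
    have hA0 : (0 : ℝ) ≤ ((B j ∩ cl s).card : ℝ) := Nat.cast_nonneg _
    have hB0 : (0 : ℝ) ≤ ((cl s \ B j).card : ℝ) := Nat.cast_nonneg _
    have hx0 : (0 : ℝ) ≤ (((B j \ S j) ∩ cl s).card : ℝ) := Nat.cast_nonneg _
    have hy0 : (0 : ℝ) ≤ (((S j \ B j) ∩ cl s).card : ℝ) := Nat.cast_nonneg _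
    have hAv : ((B j ∩ cl s).card : ℝ) * N ≤ v :=
      (mul_le_mul_of_nonneg_right hb2 hN0.le).trans hc1
    have hBv : ((cl s \ B j).card : ℝ) * N ≤ v :=
      (mul_le_mul_of_nonneg_right hb1 hN0.le).trans hc1
    by_cases hs : s ∈ W j
    · rw [if_pos hs]
      calc ((B j ∩ cl s).card : ℝ) * ((cl s \ B j).card : ℝ) * N
          = ((B j ∩ cl s).card : ℝ) * (((cl s \ B j).card : ℝ) * N) := by ring
        _ ≤ ((B j ∩ cl s).card : ℝ) * v := mul_le_mul_of_nonneg_left hBv hA0
        _ = v * ((B j ∩ cl s).card : ℝ) := by ring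
        _ ≤ _ := mul_le_mul_of_nonneg_left (by linarith) hv0
    · rw [if_neg hs, zero_add]
      by_cases hex : ∃ i, c i = some s ∧ i ∈ S j
      · -- the cell is contained in `S j`
        obtain ⟨i, hi, hiS⟩ := hex
        have hall : ∀ i', c i' = some s → i' ∈ S j := by
          intro i' hi'
          by_contra hcon
          apply hs
          rw [hW, Finset.mem_filter]
          exact ⟨mem_univ _, i, i', hi, hi', hiS, hcon⟩
        have hsub : cl s \ B j ⊆ (S j \ B j) ∩ cl s := by
          intro x hx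
          rw [Finset.mem_sdiff] at hx
          have hx1 := hx.1
          rw [hcl, Finset.mem_filter] at hx1
          rw [Finset.mem_inter, Finset.mem_sdiff]
          exact ⟨⟨hall x hx1.2, hx.2⟩, hx.1⟩
        have h3 : ((cl s \ B j).card : ℝ) ≤ ((S j \ B j) ∩ cl s).card := by
          exact_mod_cast Finset.card_le_card hsub
        calc ((B j ∩ cl s).card : ℝ) * ((cl s \ B j).card : ℝ) * N
            = (((B j ∩ cl s).card : ℝ) * N) * ((cl s \ B j).card : ℝ) := by ring
          _ ≤ v * ((cl s \ B j).card : ℝ) := mul_le_mul_of_nonneg_right hAv hB0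
          _ ≤ _ := mul_le_mul_of_nonneg_left (by linarith) hv0
      · -- the cell is disjoint from `S j`
        push Not at hex
        have hsub : B j ∩ cl s ⊆ (B j \ S j) ∩ cl s := by
          intro x hx
          rw [Finset.mem_inter] at hx
          have hx1 := hx.2
          rw [hcl, Finset.mem_filter] at hx1
          rw [Finset.mem_inter, Finset.mem_sdiff]
          exact ⟨⟨hx.1, hex x hx1.2⟩, hx.2⟩
        have h3 : ((B j ∩ cl s).card : ℝ) ≤ ((B j \ S j) ∩ cl s).card := by
          exact_mod_cast Finset.card_le_card hsub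
        calc ((B j ∩ cl s).card : ℝ) * ((cl s \ B j).card : ℝ) * N
            = ((B j ∩ cl s).card : ℝ) * (((cl s \ B j).card : ℝ) * N) := by ring
          _ ≤ ((B j ∩ cl s).card : ℝ) * v := mul_le_mul_of_nonneg_left hBv hA0
          _ = v * ((B j ∩ cl s).card : ℝ) := by ring
          _ ≤ _ := mul_le_mul_of_nonneg_left (by linarith) hv0
  -- sums
  set E : ℝ := ∑ j, (((B j \ S j).card : ℝ) + (S j \ B j).card) with hEdef
  set Tt : ℝ := ∑ j, (T j : ℝ) with hTt
  have hTj : ∀ j, (T j : ℝ) = ∑ s, (if s ∈ W j then ((B j ∩ cl s).card : ℝ) else 0) := by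
    intro j
    rw [hT]
    push_cast
    rw [← Finset.sum_filter]
    refine Finset.sum_congr ?_ fun _ _ => rfl
    ext s
    simp
  have hsum : (∑ s, (((r : ℝ) - lam) * ((cl s).card : ℝ) ^ 2 - r * (cl s).card)) * N ≤
      v * (Tt + E) := by
    calc (∑ s, (((r : ℝ) - lam) * ((cl s).card : ℝ) ^ 2 - r * (cl s).card)) * N
        ≤ (∑ s, ∑ j, ((B j ∩ cl s).card : ℝ) * ((cl s \ B j).card : ℝ)) * N :=
          mul_le_mul_of_nonneg_right (Finset.sum_le_sum fun s _ => hlow s) hN0.le
      _ = ∑ j, ∑ s, ((B j ∩ cl s).card : ℝ) * ((cl s \ B j).card : ℝ) * N := by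
          rw [Finset.sum_comm, Finset.sum_mul]
          refine Finset.sum_congr rfl fun j _ => ?_
          rw [Finset.sum_mul]
      _ ≤ ∑ j, ∑ s, v * ((if s ∈ W j then ((B j ∩ cl s).card : ℝ) else 0) +
          (((B j \ S j) ∩ cl s).card + ((S j \ B j) ∩ cl s).card)) :=
          Finset.sum_le_sum fun j _ => Finset.sum_le_sum fun s _ => hup j s
      _ = ∑ j, v * ((T j : ℝ) + ∑ s, ((((B j \ S j) ∩ cl s).card : ℝ) +
          ((S j \ B j) ∩ cl s).card)) := by
          refine Finset.sum_congr rfl fun j _ => ?_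
          rw [← Finset.mul_sum, Finset.sum_add_distrib, hTj]
      _ ≤ ∑ j, v * ((T j : ℝ) + (((B j \ S j).card : ℝ) + (S j \ B j).card)) := by
          refine Finset.sum_le_sum fun j _ => ?_
          refine mul_le_mul_of_nonneg_left ?_ (Nat.cast_nonneg _)
          have := hsymm j
          have h3 : (∑ s, ((((B j \ S j) ∩ cl s).card : ℝ) + ((S j \ B j) ∩ cl s).card)) ≤
              ((B j \ S j).card : ℝ) + (S j \ B j).card := by exact_mod_cast this
          linarith
      _ = v * (Tt + E) := by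
          rw [← Finset.mul_sum, Finset.sum_add_distrib]
  have hSlow : (v : ℝ) - K * N ≤ ∑ s, ((cl s).card : ℝ) := by
    have : ((v : ℕ) : ℝ) ≤ ((K * N + ∑ s, (cl s).card : ℕ) : ℝ) := by exact_mod_cast hcllow
    push_cast at this
    linarith
  have hSup : ∑ s, ((cl s).card : ℝ) ≤ v := by exact_mod_cast hclsum
  have h16' : 16 * (K : ℝ) * N ≤ v := by exact_mod_cast h16
  have hCS : (∑ s, ((cl s).card : ℝ)) ^ 2 ≤ K * N * ∑ s, ((cl s).card : ℝ) ^ 2 := by
    refine (sq_sum_le_card_mul_sum_sq (s := (univ : Finset κ)) (f := fun s => ((cl s).card : ℝ))).trans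
      ?_
    refine mul_le_mul_of_nonneg_right ?_ (Finset.sum_nonneg fun _ _ => sq_nonneg _)
    rw [Finset.card_univ]
    exact_mod_cast hκ
  have hlam : (lam : ℝ) ≤ r / 2 := by
    have : ((2 * lam : ℕ) : ℝ) ≤ r := by exact_mod_cast h2
    push_cast at this
    linarith
  have hr0 : (0 : ℝ) ≤ r := Nat.cast_nonneg _
  have hKN : (0 : ℝ) < K * N := by positivity
  have hE' : 16 * K * E ≤ r * v := by
    have : ((16 * K * ∑ j, ((B j \ S j).card + (S j \ B j).card) : ℕ) : ℝ) ≤
        ((r * v : ℕ) : ℝ) := by exact_mod_cast hE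
    push_cast at this
    rw [hEdef]
    exact this
  -- `Σ s_c ^ 2 ≥ (15/16) ^ 2 v ^ 2 / (K N)`
  have hv0 : (0 : ℝ) ≤ v := Nat.cast_nonneg _
  set Q : ℝ := ∑ s, ((cl s).card : ℝ) ^ 2 with hQ
  have hQ1 : (15 / 16 * (v : ℝ)) ^ 2 ≤ K * N * Q := by
    refine le_trans (pow_le_pow_left₀ (by positivity) ?_ 2) hCS
    linarith
  have hkey : (r : ℝ) * v ≤ 8 * K * Tt := by
    rcases Nat.eq_zero_or_pos v with hvz | hvp
    · have hT0 : 0 ≤ Tt := Finset.sum_nonneg fun _ _ => Nat.cast_nonneg _
      have hvz' : (v : ℝ) = 0 := by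
        rw [hvz, Nat.cast_zero]
      rw [hvz', mul_zero]
      exact mul_nonneg (by linarith) hT0
    have hvp' : (0 : ℝ) < v := by exact_mod_cast hvp
    have h3 : (((r : ℝ) - lam) * Q - r * v) * N ≤ v * (Tt + E) := by
      refine le_trans (mul_le_mul_of_nonneg_right ?_ hN0.le) hsum
      rw [Finset.sum_sub_distrib, ← Finset.mul_sum, ← Finset.mul_sum]
      have := mul_le_mul_of_nonneg_left hSup hr0
      linarith
    -- multiply by `K`
    have h4 : K * ((((r : ℝ) - lam) * Q - r * v) * N) ≤ K * (v * (Tt + E)) :=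
      mul_le_mul_of_nonneg_left h3 (by linarith)
    have h5 : (r : ℝ) / 2 * ((15 / 16 * (v : ℝ)) ^ 2) ≤ ((r : ℝ) - lam) * (K * N * Q) := by
      have hQ0 : 0 ≤ K * N * Q := (sq_nonneg _).trans hQ1
      calc (r : ℝ) / 2 * ((15 / 16 * (v : ℝ)) ^ 2) ≤ (r : ℝ) / 2 * (K * N * Q) :=
            mul_le_mul_of_nonneg_left hQ1 (by positivity)
        _ ≤ _ := mul_le_mul_of_nonneg_right (by linarith) hQ0
    have h6 : (r : ℝ) * v * (16 * K * N) ≤ r * v * v :=
      mul_le_mul_of_nonneg_left h16' (by positivity)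
    have h7 : v * (16 * K * E) ≤ v * (r * v) := mul_le_mul_of_nonneg_left hE' hv0
    have h8 : (v : ℝ) * (r * v) ≤ v * (8 * K * Tt) := by
      clear_value Q E Tt
      have e1 : K * ((((r : ℝ) - lam) * Q - r * v) * N) =
          ((r : ℝ) - lam) * (K * N * Q) - r * v * (16 * K * N) / 16 := by ring
      have e2 : K * (v * (Tt + E)) = v * (8 * K * Tt) / 8 + v * (16 * K * E) / 16 := by ring
      have e3 : (r : ℝ) / 2 * ((15 / 16 * (v : ℝ)) ^ 2) = 225 / 512 * (v * (r * v)) := by ring
      have e4 : (r : ℝ) * v * v = v * (r * v) := by ring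
      rw [e1, e2] at h4
      rw [e3] at h5
      rw [e4] at h6
      have h9 : 0 ≤ (v : ℝ) * (r * v) := mul_nonneg hv0 (mul_nonneg hr0 hv0)
      linarith
    exact le_of_mul_le_mul_left h8 hvp'
  -- Cauchy–Schwarz
  have hTT : Tt ^ 2 * N ≤ Fintype.card ι * (t * (r * v * N + lam * (v : ℝ) ^ 2)) := by
    have h1 : ∀ j, (T j : ℝ) ^ 2 ≤ t * ∑ s, ((B j ∩ cl s).card : ℝ) ^ 2 := by
      intro j
      have e : (T j : ℝ) = ∑ s ∈ W j, ((B j ∩ cl s).card : ℝ) := by
        rw [hT]
        push_cast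
        rfl
      rw [e]
      refine sq_sum_le_card_mul_sum_sq.trans ?_
      refine mul_le_mul ?_ ?_ (Finset.sum_nonneg fun _ _ => sq_nonneg _) (Nat.cast_nonneg _)
      · exact_mod_cast ht j
      · exact Finset.sum_le_sum_of_subset_of_nonneg (Finset.subset_univ _)
          (fun _ _ _ => sq_nonneg _)
    have h2 : Tt ^ 2 ≤ Fintype.card ι *
        (t * ∑ s, (r * (cl s).card + lam * ((cl s).card : ℝ) ^ 2)) := by
      calc Tt ^ 2 ≤ (univ : Finset ι).card * ∑ j, (T j : ℝ) ^ 2 :=
            sq_sum_le_card_mul_sum_sq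
        _ ≤ Fintype.card ι * (t * ∑ s, (r * (cl s).card + lam * ((cl s).card : ℝ) ^ 2)) := by
            rw [Finset.card_univ]
            refine mul_le_mul_of_nonneg_left ?_ (Nat.cast_nonneg _)
            refine (Finset.sum_le_sum fun j _ => h1 j).trans ?_
            rw [← Finset.mul_sum, Finset.sum_comm]
            exact mul_le_mul_of_nonneg_left (Finset.sum_le_sum fun s _ => hsq s) (Nat.cast_nonneg _)
    have h3 : (∑ s, (r * ((cl s).card : ℝ) + lam * ((cl s).card : ℝ) ^ 2)) * N ≤
        r * v * N + lam * (v : ℝ) ^ 2 := by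
      rw [Finset.sum_mul]
      calc ∑ s, (r * ((cl s).card : ℝ) + lam * ((cl s).card : ℝ) ^ 2) * N
          ≤ ∑ s, (r * N + lam * v) * ((cl s).card : ℝ) := by
            refine Finset.sum_le_sum fun s _ => ?_
            have h4 : (lam : ℝ) * ((cl s).card : ℝ) * (((cl s).card : ℝ) * N) ≤
                (lam : ℝ) * ((cl s).card : ℝ) * v :=
              mul_le_mul_of_nonneg_left (hcl2 s) (by positivity)
            linarith
        _ = (r * N + lam * v) * ∑ s, ((cl s).card : ℝ) := by rw [Finset.mul_sum]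
        _ ≤ (r * N + lam * v) * v := mul_le_mul_of_nonneg_left hSup (by positivity)
        _ = r * v * N + lam * (v : ℝ) ^ 2 := by ring
    calc Tt ^ 2 * N ≤ Fintype.card ι *
        (t * ∑ s, (r * (cl s).card + lam * ((cl s).card : ℝ) ^ 2)) * N :=
          mul_le_mul_of_nonneg_right h2 hN0.le
      _ = Fintype.card ι * (t *
          ((∑ s, (r * ((cl s).card : ℝ) + lam * ((cl s).card : ℝ) ^ 2)) * N)) := by ring
      _ ≤ _ := by
          refine mul_le_mul_of_nonneg_left (mul_le_mul_of_nonneg_left h3 (Nat.cast_nonneg _))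
            (Nat.cast_nonneg _)
  have h1 : ((r : ℝ) * v) ^ 2 * N ≤ 64 * K ^ 2 *
      (Fintype.card ι * (t * (r * v * N + lam * (v : ℝ) ^ 2))) := by
    calc ((r : ℝ) * v) ^ 2 * N ≤ (8 * K * Tt) ^ 2 * N :=
          mul_le_mul_of_nonneg_right (pow_le_pow_left₀ (by positivity) hkey 2) hN0.le
      _ = 64 * K ^ 2 * (Tt ^ 2 * N) := by ring
      _ ≤ _ := mul_le_mul_of_nonneg_left hTT (by positivity)
  rcases Nat.eq_zero_or_pos v with hv0 | hv0
  · calc r ^ 2 * v * N = 0 := by rw [hv0, Nat.mul_zero, Nat.zero_mul]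
      _ ≤ _ := Nat.zero_le _
  · have hv0' : (0 : ℝ) < v := by exact_mod_cast hv0
    have h2 : (v : ℝ) * ((r : ℝ) ^ 2 * v * N) ≤
        v * (64 * K ^ 2 * Fintype.card ι * t * (r * N + lam * v)) := by linarith
    have h3 := le_of_mul_le_mul_left h2 hv0'
    exact_mod_cast h3

end Pool.Agent.U671.ST
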