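import Pool.Agent.U671.ST.Complex
import Pool.Agent.U671.ST.Emb

/-!
Constructible sets over fields of characteristic zero: transfer to semialgebraic sets.
-/

set_option autoImplicit false

namespace Pool.Agent.U671.ST

open MvPolynomial Finset Pool.Agent.U671.VS

open scoped Classical

theorem transfer (F : Type) [Field F] [CharZero F] {n d D : ℕ} (p : Fin n → Fin d → F) {ι : Type}
    [Countable ι] (S : ι → Set (Fin d → F)) (hS : ∀ b, Constructible F d D (S b)) :
    ∃ (x : Fin n → Fin (d + d) → ℝ) (S' : ι → Set (Fin (d + d) → ℝ)),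
      (∀ b, SemiAlg (d + d) (2 * D) (S' b)) ∧ ∀ b i, x i ∈ S' b ↔ p i ∈ S b := by
  choose t g Φ h1 h2 using hS
  set T : Set F := Set.range (fun y : Fin n × Fin d => p y.1 y.2) ∪
    Set.range (fun y : Σ b : ι, Fin (t b) × (Fin d →₀ ℕ) => coeff y.2.2 (g y.1 y.2.1)) with hT
  have hTc : T.Countable := (Set.countable_range _).union (Set.countable_range _)
  obtain ⟨A, ψ, hTA, hψ⟩ := subring_emb F T hTc
  have hp : ∀ i l, p i l ∈ A := fun i l => hTA (Or.inl ⟨(i, l), rfl⟩)
  have hc : ∀ b r m, coeff m (g b r) ∈ A := fun b r m => hTA (Or.inr ⟨⟨b, r, m⟩, rfl⟩)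
  set q : Fin n → Fin d → ℂ := fun i l => ψ ⟨p i l, hp i l⟩ with hq
  set G : ∀ b : ι, Fin (t b) → MvPolynomial (Fin d) ℂ := fun b r =>
    ∑ m ∈ (g b r).support, monomial m (ψ ⟨coeff m (g b r), hc b r m⟩) with hG
  have hdeg : ∀ b r, (G b r).totalDegree ≤ (g b r).totalDegree := by
    intro b r
    refine (totalDegree_finsetSum _ _).trans (Finset.sup_le fun m hm => ?_)
    exact (totalDegree_monomial_le _ _).trans (le_totalDegree hm)
  have hkey : ∀ b r i, eval (q i) (G b r) = 0 ↔ eval (p i) (g b r) = 0 := by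
    intro b r i
    set E : A := ∑ m ∈ (g b r).support, (⟨coeff m (g b r), hc b r m⟩ : A) *
      ∏ l, (⟨p i l, hp i l⟩ : A) ^ m l with hE
    have e1 : (E : F) = eval (p i) (g b r) := by
      rw [eval_eq', hE]
      push_cast
      rfl
    have e2 : ψ E = eval (q i) (G b r) := by
      rw [hE, hG, map_sum, map_sum]
      refine Finset.sum_congr rfl fun m _ => ?_
      rw [map_mul, map_prod, eval_monomial, Finsupp.prod_fintype _ _ (fun _ => pow_zero _)]
      congr 1
      refine Finset.prod_congr rfl fun l _ => ?_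
      rw [map_pow]
    rw [← e2, ← e1, map_eq_zero_iff ψ hψ]
    exact (ZeroMemClass.coe_eq_zero).symm
  have hcon : ∀ b, Constructible ℂ d D {z | (fun r => eval z (G b r) = 0) ∈ Φ b} := fun b =>
    ⟨t b, G b, Φ b, (Finset.sum_le_sum fun r _ => hdeg b r).trans (h1 b), fun z => Iff.rfl⟩
  choose S' hS'1 hS'2 using fun b => (hcon b).semiAlg
  refine ⟨fun i => coords (q i), S', hS'1, fun b i => ?_⟩
  rw [hS'2, h2]
  change (fun r => eval (q i) (G b r) = 0) ∈ Φ b ↔ _
  have h3 : (fun r => eval (q i) (G b r) = 0) = fun r => eval (p i) (g b r) = 0 := by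
    funext r
    exact propext (hkey b r i)
  rw [h3]

end Pool.Agent.U671.ST
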