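import Pool.Agent.U671.ST.Two
import Pool.Agent.U671.ST.Transfer
import Pool.Agent.R60.Steiner.Bounds

/-!
Steiner systems as `2`-designs: the blocks have complexity at least `c q ^ (1 / d)`.
-/

set_option autoImplicit false

namespace Pool.Agent.U671.ST

open MvPolynomial Finset Pool.Agent.U671.VS

open scoped Classical

/-- The number of points `i` which are wrongly put in or left out of `b` by the set `S`, if the points
are placed at `p i`. -/
noncomputable def errors {n : ℕ} {P : Type} (p : Fin n → P) (b : Finset (Fin n)) (S : Set P) : ℕ :=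
  (univ.filter (fun i => ¬ (p i ∈ S ↔ i ∈ b))).card

theorem steiner_params {n q r : ℕ} (B : Finset (Finset (Fin n))) (hB : IsSteiner n q r B)
    (hr2 : 2 ≤ r) (hrq : r < q) (hqn : q < n) : ∃ r1 lam : ℕ,
      (∀ x, (B.filter (fun b => x ∈ b)).card = r1) ∧
      (∀ x y, x ≠ y → (B.filter (fun b => x ∈ b ∧ y ∈ b)).card = lam) ∧
      1 ≤ r1 ∧ 1 ≤ lam ∧ 2 * lam ≤ r1 ∧ lam * n ≤ r1 * q ∧ B.card * q = n * r1 := by
  have hB' : Pool.Agent.R60.Steiner.IsSteiner n q r B := hB
  have h1 : ∀ x, (B.filter (fun b => x ∈ b)).card * (q - 1).choose (r - 1) =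
      (n - 1).choose (r - 1) := by
    intro x
    have h := Pool.Agent.R60.Steiner.count_blocks hB' (by omega : 1 ≤ r)
      (Finset.card_singleton x)
    simpa only [Finset.singleton_subset_iff] using h
  have h2 : ∀ x y, x ≠ y → (B.filter (fun b => x ∈ b ∧ y ∈ b)).card * (q - 2).choose (r - 2) =
      (n - 2).choose (r - 2) := by
    intro x y hxy
    have h := Pool.Agent.R60.Steiner.count_blocks hB' hr2 (Finset.card_pair hxy)
    simpa only [Finset.insert_subset_iff, Finset.singleton_subset_iff] using h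
  have hc1 : 0 < (q - 1).choose (r - 1) := Nat.choose_pos (by omega)
  have hc2 : 0 < (q - 2).choose (r - 2) := Nat.choose_pos (by omega)
  set x0 : Fin n := ⟨0, by omega⟩ with hx0
  set x1 : Fin n := ⟨1, by omega⟩ with hx1
  have h01 : x0 ≠ x1 := by
    rw [hx0, hx1]
    intro h
    simp at h
  refine ⟨(B.filter (fun b => x0 ∈ b)).card, (B.filter (fun b => x0 ∈ b ∧ x1 ∈ b)).card,
    ?_, ?_, ?_, ?_, ?_⟩
  · intro x
    exact Nat.eq_of_mul_eq_mul_right hc1 ((h1 x).trans (h1 x0).symm)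
  · intro x y hxy
    exact Nat.eq_of_mul_eq_mul_right hc2 ((h2 x y hxy).trans (h2 x0 x1 h01).symm)
  · have h3 : 0 < (B.filter (fun b => x0 ∈ b)).card * (q - 1).choose (r - 1) := by
      rw [h1 x0]
      exact Nat.choose_pos (by omega)
    exact Nat.pos_of_mul_pos_right h3
  · have h3 : 0 < (B.filter (fun b => x0 ∈ b ∧ x1 ∈ b)).card * (q - 2).choose (r - 2) := by
      rw [h2 x0 x1 h01]
      exact Nat.choose_pos (by omega)
    exact Nat.pos_of_mul_pos_right h3
  set r1 := (B.filter (fun b => x0 ∈ b)).card with hr1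
  set lam := (B.filter (fun b => x0 ∈ b ∧ x1 ∈ b)).card with hlam
  have hle : lam ≤ r1 := by
    refine Finset.card_le_card ?_
    intro b hb
    rw [Finset.mem_filter] at hb ⊢
    exact ⟨hb.1, hb.2.1⟩
  -- `lam (n - 1) = r1 (q - 1)`
  have hrel : lam * (n - 1) = r1 * (q - 1) := by
    have e1 := h1 x0
    have e2 := h2 x0 x1 h01
    obtain ⟨r', rfl⟩ : ∃ r', r = r' + 2 := ⟨r - 2, by omega⟩
    obtain ⟨q', rfl⟩ : ∃ q', q = q' + 2 := ⟨q - 2, by omega⟩
    obtain ⟨n', rfl⟩ : ∃ n', n = n' + 2 := ⟨n - 2, by omega⟩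
    have a1 : q' + 2 - 1 = q' + 1 := rfl
    have a2 : n' + 2 - 1 = n' + 1 := rfl
    have a3 : r' + 2 - 1 = r' + 1 := rfl
    rw [a1, a2, a3] at e1
    rw [Nat.add_sub_cancel, Nat.add_sub_cancel, Nat.add_sub_cancel] at e2
    rw [a1, a2]
    rw [Nat.add_sub_cancel, Nat.add_sub_cancel] at hc2
    have b1 := Nat.add_one_mul_choose_eq q' r'
    have b2 := Nat.add_one_mul_choose_eq n' r'
    refine Nat.eq_of_mul_eq_mul_right hc2 ?_
    calc lam * (n' + 1) * q'.choose r' = (n' + 1) * (lam * q'.choose r') := by ring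
      _ = (n' + 1) * n'.choose r' := by rw [e2]
      _ = (n' + 1).choose (r' + 1) * (r' + 1) := b2
      _ = (r1 * (q' + 1).choose (r' + 1)) * (r' + 1) := by rw [e1]
      _ = r1 * ((q' + 1).choose (r' + 1) * (r' + 1)) := by ring
      _ = r1 * ((q' + 1) * q'.choose r') := by rw [b1]
      _ = r1 * (q' + 1) * q'.choose r' := by ring
  have htits : 2 * q ≤ n := by
    have h3 := Pool.Agent.R60.Steiner.tits hB' (by omega) hrq.le hqn
    obtain ⟨a, rfl⟩ : ∃ a, q = r + 1 + a := ⟨q - r - 1, by omega⟩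
    have h4 : r + 1 + a - r + 1 = a + 2 := by omega
    rw [h4] at h3
    nlinarith
  refine ⟨?_, ?_, ?_⟩
  · have h3 : 2 * lam * (n - 1) ≤ r1 * (n - 1) := by
      calc 2 * lam * (n - 1) = r1 * (2 * (q - 1)) := by rw [mul_assoc, hrel]; ring
        _ ≤ r1 * (n - 1) := Nat.mul_le_mul_left _ (by omega)
    exact Nat.le_of_mul_le_mul_right h3 (by omega)
  · calc lam * n = lam * (n - 1) + lam := by
          obtain ⟨n', rfl⟩ : ∃ n', n = n' + 1 := ⟨n - 1, by omega⟩
          rw [Nat.add_sub_cancel]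
          ring
      _ ≤ r1 * (q - 1) + r1 := by rw [hrel]; exact Nat.add_le_add_left hle _
      _ = r1 * q := by
          obtain ⟨q', rfl⟩ : ∃ q', q = q' + 1 := ⟨q - 1, by omega⟩
          rw [Nat.add_sub_cancel]
          ring
  · have h3 : ∑ b ∈ B, b.card = ∑ x : Fin n, (B.filter (fun b => x ∈ b)).card := by
      have e1 : ∀ b ∈ B, b.card = ∑ x : Fin n, if x ∈ b then 1 else 0 := by
        intro b _
        rw [← Finset.sum_filter, ← Finset.card_eq_sum_ones]
        congr 1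
        ext y
        simp
      rw [Finset.sum_congr rfl e1, Finset.sum_comm]
      refine Finset.sum_congr rfl fun x _ => ?_
      rw [← Finset.sum_filter, ← Finset.card_eq_sum_ones]
    rw [Finset.sum_congr rfl (fun b hb => hB.1 b hb), Finset.sum_const, smul_eq_mul] at h3
    rw [h3, Finset.sum_congr rfl (fun x _ => Nat.eq_of_mul_eq_mul_right hc1
      ((h1 x).trans (h1 x0).symm)), Finset.sum_const, Finset.card_univ, Fintype.card_fin,
      smul_eq_mul]

/-- A Steiner system as a `2`-design. -/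
theorem steiner_design {n q r : ℕ} (B : Finset (Finset (Fin n))) (hB : IsSteiner n q r B)
    (hr2 : 2 ≤ r) (hrq : r < q) (hqn : q < n) (f : Fin B.card ≃ B) : ∃ lam : ℕ,
      IsDesign q lam (fun j => (f j).1) := by
  obtain ⟨r1, lam, hr, hl, hr1, hl1, h2l, hln, hbq⟩ := steiner_params B hB hr2 hrq hqn
  refine ⟨lam, by omega, hqn, hl1, fun j => hB.1 _ (f j).2, ?_⟩
  intro x y hxy
  rw [← hl x y hxy]
  refine Finset.card_bij (fun j _ => (f j).1) ?_ ?_ ?_
  · intro j hj
    rw [Finset.mem_filter] at hj ⊢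
    exact ⟨(f j).2, hj.2⟩
  · intro j _ j' _ hjj
    exact f.injective (Subtype.ext hjj)
  · intro b hb
    rw [Finset.mem_filter] at hb
    refine ⟨f.symm ⟨b, hb.1⟩, ?_, ?_⟩
    · rw [Finset.mem_filter, Equiv.apply_symm_apply]
      exact ⟨mem_univ _, hb.2⟩
    · rw [Equiv.apply_symm_apply]

/-- For at least `ρ |B|` of the members `b` of `B` there is a semialgebraic set of complexity at most
`D` which contains at most `M` of all points, and at least `ε |b|` of the points of `b`. -/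
def CorrelatesWith {n d : ℕ} (B : Finset (Finset (Fin n))) (p : Fin n → Fin d → ℝ) (D : ℕ)
    (M ρ ε : ℝ) : Prop :=
  ∃ (G : Finset (Finset (Fin n))) (S : Finset (Fin n) → Set (Fin d → ℝ)), G ⊆ B ∧
    ρ * B.card ≤ G.card ∧ ∀ b ∈ G, SemiAlg d D (S b) ∧
      ((univ.filter (fun i => p i ∈ S b)).card : ℝ) ≤ M ∧
      ε * b.card ≤ (b.filter (fun i => p i ∈ S b)).card

theorem correlation (d : ℕ) (hd : 1 ≤ d) : ∃ C : ℝ, 1 ≤ C ∧
    ∀ (n q r : ℕ) (B : Finset (Finset (Fin n))), IsSteiner n q r B → 2 ≤ r → r < q → q < n →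
    ∀ (p : Fin n → Fin d → ℝ) (D : ℕ) (M ρ ε : ℝ), 1 ≤ D → 0 < ρ → ρ ≤ 1 → 0 < ε → ε ≤ 1 →
      CorrelatesWith B p D M ρ ε →
      (q : ℝ) ≤ C * (D / (ρ * ε ^ 2)) ^ d ∨ ρ * ε * n ≤ C * M * (D / (ρ * ε ^ 2)) ^ d := by
  obtain ⟨C, hC, h⟩ := part1 d hd
  refine ⟨C, hC, ?_⟩
  intro n q r B hB hr2 hrq hqn p D M ρ ε hD hρ hρ1 hε hε1 hcor
  obtain ⟨G, S, hGB, hG, hS⟩ := hcor
  set f : Fin B.card ≃ B := B.equivFin.symm with hf
  obtain ⟨lam, hdes⟩ := steiner_design B hB hr2 hrq hqn f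
  refine h n B.card q lam _ hdes p D M ρ ε hD hρ hρ1 hε hε1 ?_
  refine ⟨univ.filter (fun j => (f j).1 ∈ G), fun j => S (f j).1, ?_, ?_⟩
  · have hFG : (univ.filter (fun j => (f j).1 ∈ G)).card = G.card := by
      refine Finset.card_bij (fun j _ => (f j).1) ?_ ?_ ?_
      · intro j hj
        exact (Finset.mem_filter.1 hj).2
      · intro j _ j' _ hjj
        exact f.injective (Subtype.ext hjj)
      · intro b hb
        refine ⟨f.symm ⟨b, hGB hb⟩, ?_, ?_⟩
        · rw [Finset.mem_filter, Equiv.apply_symm_apply]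
          exact ⟨mem_univ _, hb⟩
        · rw [Equiv.apply_symm_apply]
    rw [hFG]
    exact hG
  · intro j hj
    have hjG := (Finset.mem_filter.1 hj).2
    obtain ⟨s1, s2, s3⟩ := hS _ hjG
    refine ⟨s1, s2, ?_⟩
    rw [hB.1 _ (f j).2] at s3
    exact s3

/-- The blocks of a Steiner system have complexity at least `c q ^ (1 / d)`. -/
theorem steiner_bound (d : ℕ) (hd : 1 ≤ d) : ∃ C : ℕ, 1 ≤ C ∧
    ∀ (n q r : ℕ) (B : Finset (Finset (Fin n))), IsSteiner n q r B → 2 ≤ r → r < q → q < n →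
    ∀ (D : ℕ) (p : Fin n → Fin d → ℝ) (S : Finset (Fin n) → Set (Fin d → ℝ)), 1 ≤ D →
      (∀ b ∈ B, SemiAlg d D (S b)) → C * ∑ b ∈ B, errors p b (S b) ≤ B.card * q →
      q ≤ C * D ^ d := by
  obtain ⟨K, C, hK, hC, h⟩ := two d hd
  refine ⟨16 * K * C, Nat.one_le_iff_ne_zero.2 (by positivity), ?_⟩
  intro n q r B hB hr2 hrq hqn D p S hD hS hE
  obtain ⟨r1, lam, hr, hl, hr1, -, h2l, hln, hbq⟩ := steiner_params B hB hr2 hrq hqn
  have : Nonempty (Fin n) := ⟨⟨0, by omega⟩⟩
  have hmain := h (Fin n) B (fun b => b.1) q r1 lam D p (fun b => S b.1) (fun b => hS b.1 b.2) hD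
    hr1 (fun b => hB.1 b.1 b.2) ?_ ?_ h2l (by rw [Fintype.card_fin]; exact hln) ?_
  · refine hmain.trans (Nat.mul_le_mul_right _ ?_)
    exact Nat.le_mul_of_pos_left _ (by positivity)
  · intro x
    have h3 : (univ.filter (fun b : B => x ∈ b.1)).card = r1 := by
      rw [← hr x]
      refine Finset.card_bij (fun b _ => b.1) ?_ ?_ ?_
      · intro b hb
        rw [Finset.mem_filter] at hb ⊢
        exact ⟨b.2, hb.2⟩
      · intro b _ b' _ hbb
        exact Subtype.ext hbb
      · intro b hb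
        rw [Finset.mem_filter] at hb
        exact ⟨⟨b, hb.1⟩, Finset.mem_filter.2 ⟨mem_univ _, hb.2⟩, rfl⟩
    convert h3
  · intro x y hxy
    have h3 : (univ.filter (fun b : B => x ∈ b.1 ∧ y ∈ b.1)).card ≤ lam := by
      rw [← hl x y hxy]
      refine Finset.card_le_card_of_injOn (fun b => b.1) ?_ ?_
      · intro b hb
        rw [Finset.mem_coe, Finset.mem_filter] at hb ⊢
        exact ⟨b.2, hb.2⟩
      · intro b _ b' _ hbb
        exact Subtype.ext hbb
    convert h3
  · have h3 : 16 * K * ∑ b : B, (univ.filter (fun x => ¬ (p x ∈ S b.1 ↔ x ∈ b.1))).card ≤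
        r1 * Fintype.card (Fin n) := by
      rw [Fintype.card_fin, Nat.mul_comm r1 n, ← hbq]
      have e1 : ∑ b : B, (univ.filter (fun x => ¬ (p x ∈ S b.1 ↔ x ∈ b.1))).card =
          ∑ b ∈ B, errors p b (S b) := by
        rw [← Finset.sum_coe_sort B]
        rfl
      rw [e1]
      refine le_trans ?_ hE
      refine Nat.mul_le_mul_right _ ?_
      exact Nat.le_mul_of_pos_right _ (by omega)
    convert h3

/-- The same over fields of characteristic zero. -/
theorem steiner_bound_alg (d : ℕ) (hd : 1 ≤ d) : ∃ C : ℕ, 1 ≤ C ∧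
    ∀ (n q r : ℕ) (B : Finset (Finset (Fin n))), IsSteiner n q r B → 2 ≤ r → r < q → q < n →
    ∀ (F : Type) [Field F] [CharZero F] (D : ℕ) (p : Fin n → Fin d → F)
      (S : Finset (Fin n) → Set (Fin d → F)), 1 ≤ D →
      (∀ b ∈ B, Constructible F d D (S b)) → C * ∑ b ∈ B, errors p b (S b) ≤ B.card * q →
      q ≤ C * D ^ (2 * d) := by
  obtain ⟨C, hC, h⟩ := steiner_bound (d + d) (by omega)
  refine ⟨4 ^ d * C, Nat.one_le_iff_ne_zero.2 (by positivity), ?_⟩
  intro n q r B hB hr2 hrq hqn F _ _ D p S hD hS hE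
  obtain ⟨x, S', hx1, hx2⟩ := transfer F p (fun b : B => S b.1) (fun b => hS b.1 b.2)
  have h4 : 1 ≤ 4 ^ d := Nat.one_le_pow _ _ (by norm_num)
  have h1 := h n q r B hB hr2 hrq hqn (2 * D) x
    (fun b => if hb : b ∈ B then S' ⟨b, hb⟩ else ∅) (by omega) (by
      intro b hb
      rw [dif_pos hb]
      exact hx1 _) (by
      refine le_trans ?_ hE
      rw [Nat.mul_comm (4 ^ d) C, mul_assoc]
      refine Nat.mul_le_mul_left _ ?_
      refine le_trans (le_of_eq ?_) (Nat.le_mul_of_pos_left _ h4)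
      refine Finset.sum_congr rfl fun b hb => ?_
      rw [dif_pos hb, errors, errors]
      congr 1
      ext i
      rw [Finset.mem_filter, Finset.mem_filter, hx2])
  refine h1.trans (le_of_eq ?_)
  rw [← two_mul, mul_pow, pow_mul 2 2 d]
  norm_num
  ring

end Pool.Agent.U671.ST
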