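import Pool.Agent.U671.ST.Two
import Pool.Agent.U671.ST.Transfer
import Pool.Agent.U671.ST.Design

/-!
The blocks of `2`-designs with `2 k ≤ v` have complexity at least `c k ^ (1 / d)`.
-/

set_option autoImplicit false

namespace Pool.Agent.U671.ST

open MvPolynomial Finset Pool.Agent.U671.VS

open scoped Classical

/-- The number of points `i` which are wrongly put in or left out of `b` by the set `S`, if the points
are placed at `p i`. -/
noncomputable def wrong {n : ℕ} {P : Type} (p : Fin n → P) (b : Finset (Fin n)) (S : Set P) : ℕ :=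
  (univ.filter (fun i => ¬ (p i ∈ S ↔ i ∈ b))).card

theorem design_bound (d : ℕ) (hd : 1 ≤ d) : ∃ C : ℕ, 1 ≤ C ∧
    ∀ (v b k lam : ℕ) (B : Fin b → Finset (Fin v)), IsDesign k lam B → 2 * k ≤ v →
    ∀ (D : ℕ) (p : Fin v → Fin d → ℝ) (S : Fin b → Set (Fin d → ℝ)), 1 ≤ D →
      (∀ j, SemiAlg d D (S j)) → C * ∑ j, wrong p (B j) (S j) ≤ b * k → k ≤ C * D ^ d := by
  obtain ⟨K, C, hK, hC, h⟩ := two d hd
  refine ⟨16 * K * C, Nat.one_le_iff_ne_zero.2 (by positivity), ?_⟩
  intro v b k lam B hB h2k D p S hD hS hE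
  have hk2 := hB.two_le
  have hkv := hB.lt
  have hl1 := hB.one_le
  have : Nonempty (Fin v) := ⟨⟨0, by omega⟩⟩
  have hrep := Pool.Agent.U671.SD.rep B hB.card hB.pairs
  set x0 : Fin v := ⟨0, by omega⟩ with hx0
  set r : ℕ := (univ.filter (fun j => x0 ∈ B j)).card with hr
  have hr' : ∀ x, (univ.filter (fun j => x ∈ B j)).card = r := fun x =>
    Nat.eq_of_mul_eq_mul_right (by omega : 0 < k - 1) ((hrep x).trans (hrep x0).symm)
  have hrel : r * (k - 1) = lam * (v - 1) := hrep x0
  have hr1 : 1 ≤ r := by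
    have h1 : 0 < r * (k - 1) := by
      rw [hrel]
      exact Nat.mul_pos hl1 (by omega)
    exact Nat.pos_of_mul_pos_right h1
  have h2l : 2 * lam ≤ r := by
    have h3 : 2 * lam * (v - 1) ≤ r * (v - 1) := by
      calc 2 * lam * (v - 1) = r * (2 * (k - 1)) := by rw [mul_assoc, ← hrel]; ring
        _ ≤ r * (v - 1) := Nat.mul_le_mul_left _ (by omega)
    exact Nat.le_of_mul_le_mul_right h3 (by omega)
  have hlv : lam * v ≤ r * k := by
    calc lam * v = lam * (v - 1) + lam := by
          obtain ⟨v', rfl⟩ : ∃ v', v = v' + 1 := ⟨v - 1, by omega⟩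
          rw [Nat.add_sub_cancel]
          ring
      _ ≤ r * (k - 1) + r := by rw [hrel]; exact Nat.add_le_add_left (by omega) _
      _ = r * k := by
          obtain ⟨k', rfl⟩ : ∃ k', k = k' + 1 := ⟨k - 1, by omega⟩
          rw [Nat.add_sub_cancel]
          ring
  have hbk : b * k = v * r := by
    have h1 := Pool.Agent.U671.SD.flags B univ
    rw [Finset.sum_congr rfl (fun x _ => hr' x), Finset.sum_const, Finset.card_univ, smul_eq_mul,
      Fintype.card_fin] at h1
    rw [Finset.sum_congr rfl (fun j _ => by rw [Finset.inter_univ, hB.card j]), Finset.sum_const,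
      Finset.card_univ, smul_eq_mul, Fintype.card_fin] at h1
    exact h1
  have hmain := h (Fin v) (Fin b) B k r lam D p S hS hD hr1 hB.card (by
      intro x
      refine Eq.trans ?_ (hr' x)
      congr 1
      ext j
      simp only [mem_filter, mem_univ, true_and]) (by
      intro x y hxy
      refine le_trans (le_of_eq ?_) (hB.pairs x y hxy).le
      congr 1
      ext j
      simp only [mem_filter, mem_univ, true_and]) h2l (by rw [Fintype.card_fin]; exact hlv) (by
      have h3 : 16 * K * ∑ j, (univ.filter (fun x => ¬ (p x ∈ S j ↔ x ∈ B j))).card ≤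
          r * Fintype.card (Fin v) := by
        rw [Fintype.card_fin, Nat.mul_comm r v, ← hbk]
        refine le_trans ?_ hE
        exact Nat.mul_le_mul_right _ (Nat.le_mul_of_pos_right _ (by omega))
      refine le_trans (le_of_eq ?_) h3
      congr 1
      refine Finset.sum_congr rfl fun j _ => ?_
      congr 1
      ext x
      simp only [mem_filter, mem_univ, true_and])
  refine hmain.trans (Nat.mul_le_mul_right _ ?_)
  exact Nat.le_mul_of_pos_left _ (by positivity)

theorem design_bound_alg (d : ℕ) (hd : 1 ≤ d) : ∃ C : ℕ, 1 ≤ C ∧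
    ∀ (v b k lam : ℕ) (B : Fin b → Finset (Fin v)), IsDesign k lam B → 2 * k ≤ v →
    ∀ (F : Type) [Field F] [CharZero F] (D : ℕ) (p : Fin v → Fin d → F)
      (S : Fin b → Set (Fin d → F)), 1 ≤ D → (∀ j, Constructible F d D (S j)) →
      C * ∑ j, wrong p (B j) (S j) ≤ b * k → k ≤ C * D ^ (2 * d) := by
  obtain ⟨C, hC, h⟩ := design_bound (d + d) (by omega)
  refine ⟨4 ^ d * C, Nat.one_le_iff_ne_zero.2 (by positivity), ?_⟩
  intro v b k lam B hB h2k F _ _ D p S hD hS hE
  obtain ⟨x, S', hx1, hx2⟩ := transfer F p S hS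
  have h4 : 1 ≤ 4 ^ d := Nat.one_le_pow _ _ (by norm_num)
  have h1 := h v b k lam B hB h2k (2 * D) x S' (by omega) hx1 (by
      refine le_trans ?_ hE
      rw [Nat.mul_comm (4 ^ d) C, mul_assoc]
      refine Nat.mul_le_mul_left _ ?_
      refine le_trans (le_of_eq ?_) (Nat.le_mul_of_pos_left _ h4)
      refine Finset.sum_congr rfl fun j _ => ?_
      rw [wrong, wrong]
      congr 1
      ext i
      rw [Finset.mem_filter, Finset.mem_filter, hx2])
  refine h1.trans (le_of_eq ?_)
  rw [← two_mul, mul_pow, pow_mul 2 2 d]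
  norm_num
  ring

end Pool.Agent.U671.ST
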