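import Pool.Agent.U671.ST.Sep
import Pool.Agent.U671.VS.Defs
import Pool.Agent.U671.SD.Cells

/-!
`2`-designs with at most half of the points in a block: the blocks have complexity at least
`c k ^ (1 / d)`.
-/

set_option autoImplicit false

namespace Pool.Agent.U671.ST

open MvPolynomial Finset Pool.Agent.U671.VS

open scoped Classical

open Pool.Agent.R98.EQ Pool.Agent.U671.SD in
theorem two (d : ℕ) (hd : 1 ≤ d) : ∃ K C : ℕ, 1 ≤ K ∧ 1 ≤ C ∧
    ∀ (V ι : Type) [Fintype V] [Fintype ι] [Nonempty V] (B : ι → Finset V) (k r lam D : ℕ)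
      (p : V → Fin d → ℝ) (S : ι → Set (Fin d → ℝ)), (∀ j, SemiAlg d D (S j)) → 1 ≤ D → 1 ≤ r →
      (∀ j, (B j).card = k) → (∀ x, (univ.filter (fun j => x ∈ B j)).card = r) →
      (∀ x y, x ≠ y → (univ.filter (fun j => x ∈ B j ∧ y ∈ B j)).card ≤ lam) →
      2 * lam ≤ r → lam * Fintype.card V ≤ r * k →
      16 * K * ∑ j, (univ.filter (fun x => ¬ (p x ∈ S j ↔ x ∈ B j))).card ≤ r * Fintype.card V →
      k ≤ C * D ^ d := by
  obtain ⟨K, hK, hcells⟩ := cells d hd
  refine ⟨K, 16 * K * (512 * K ^ 3) ^ d, hK, Nat.one_le_iff_ne_zero.2 (by positivity), ?_⟩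
  intro V ι _ _ _ B k r lam D p S hS hD hr1 hcard hr hl h2 hlv hE
  by_contra hcon
  push Not at hcon
  set v : ℕ := Fintype.card V with hv
  have hv0 : 0 < v := Fintype.card_pos
  obtain ⟨x0⟩ := (inferInstance : Nonempty V)
  obtain ⟨j0, hj0⟩ : (univ.filter (fun j => x0 ∈ B j)).Nonempty := by
    rw [← Finset.card_pos, hr x0]
    omega
  have hkv : k ≤ v := by
    rw [← hcard j0]
    exact Finset.card_le_univ _
  have hk0 : 0 < k := by
    rw [← hcard j0]
    exact Finset.card_pos.2 ⟨x0, (Finset.mem_filter.1 hj0).2⟩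
  have hbk : Fintype.card ι * k = v * r := by
    have h := Pool.Agent.U671.VS.inc B univ
    rw [Finset.sum_congr rfl (fun x _ => hr x), Finset.sum_const, Finset.card_univ, smul_eq_mul] at h
    rw [Finset.sum_congr rfl (fun j _ => by rw [Finset.inter_univ, hcard j]), Finset.sum_const,
      Finset.card_univ, smul_eq_mul] at h
    exact h
  -- the scale
  set L : ℕ := Nat.log 2 (256 * K ^ 3 * D) + 1 with hL
  have hA0 : 256 * K ^ 3 * D ≠ 0 := by positivity
  have hL1 : 256 * K ^ 3 * D < 2 ^ L := Nat.lt_pow_succ_log_self (by norm_num) _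
  have hL2 : 2 ^ L ≤ 512 * K ^ 3 * D := by
    rw [hL, pow_succ]
    calc 2 ^ Nat.log 2 (256 * K ^ 3 * D) * 2 ≤ (256 * K ^ 3 * D) * 2 :=
          Nat.mul_le_mul_right _ (Nat.pow_log_le_self 2 hA0)
      _ = 512 * K ^ 3 * D := by ring
  have hK3 : 1 ≤ K ^ 3 := Nat.one_le_pow _ _ hK
  have hDL : 2 * D ≤ 2 ^ L := by
    refine le_trans ?_ hL1.le
    calc 2 * D = 2 * 1 * D := by ring
      _ ≤ 256 * K ^ 3 * D := by
        gcongr
        norm_num
  have hN : 16 * K * 2 ^ (d * L) < k := by
    refine lt_of_le_of_lt ?_ hcon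
    calc 16 * K * 2 ^ (d * L) = 16 * K * (2 ^ L) ^ d := by rw [← pow_mul, Nat.mul_comm L d]
      _ ≤ 16 * K * (512 * K ^ 3 * D) ^ d :=
        Nat.mul_le_mul_left _ (Nat.pow_le_pow_left hL2 _)
      _ = _ := by rw [mul_pow]; ring
  have hNk : 2 ^ (d * L) ≤ k := by
    refine le_trans ?_ hN.le
    exact Nat.le_mul_of_pos_left _ (by positivity)
  -- the cells
  let e : Fin v ≃ V := (Fintype.equivFin V).symm
  obtain ⟨κ, hκ, c0, h1, h2', h3, h4⟩ := hcells v (fun i => p (e i)) L D hDL
  set c : V → Option κ := fun y => c0 (e.symm y) with hc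
  have hcardc : ∀ o : Option κ, (univ.filter (fun y => c y = o)).card =
      (univ.filter (fun i => c0 i = o)).card := by
    intro o
    refine Finset.card_bij' (fun y _ => e.symm y) (fun i _ => e i) ?_ ?_ ?_ ?_
    · intro y hy
      rw [Finset.mem_filter] at hy ⊢
      exact ⟨mem_univ _, hy.2⟩
    · intro i hi
      rw [Finset.mem_filter] at hi ⊢
      refine ⟨mem_univ _, ?_⟩
      rw [hc]
      simp only [Equiv.symm_apply_apply]
      exact hi.2
    · intro y _
      exact e.apply_symm_apply y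
    · intro i _
      exact e.symm_apply_apply i
  have hsep := sep B (fun j => univ.filter (fun x => p x ∈ S j)) r lam hr hl c K (2 ^ (d * L))
    (K * (2 * D) * 2 ^ ((d - 1) * L)) hK Nat.one_le_two_pow h1 (by
      rw [hcardc none]
      exact h2') (by
      intro s
      rw [hcardc (some s)]
      exact h3 s) (by
      intro j
      obtain ⟨t, g, Φ, hg1, hg2⟩ := hS j
      refine le_trans (Finset.card_le_card ?_) (h4 (List.ofFn g) (by
        unfold degSum
        rw [List.map_ofFn, List.sum_ofFn]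
        exact hg1))
      intro s hs
      rw [Finset.mem_filter] at hs ⊢
      obtain ⟨_, y, y', hy, hy', hyT, hy'T⟩ := hs
      rw [Finset.mem_filter] at hyT hy'T
      refine ⟨mem_univ _, e.symm y, e.symm y', hy, hy', ?_⟩
      by_contra hcon
      have h5 : (fun r => SignType.sign (eval (p y) (g r))) =
          fun r => SignType.sign (eval (p y') (g r)) := by
        funext r
        by_contra h6
        refine hcon ⟨g r, List.mem_ofFn.2 ⟨r, rfl⟩, ?_⟩
        rw [e.apply_symm_apply, e.apply_symm_apply]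
        exact h6
      refine hy'T ⟨mem_univ _, ?_⟩
      rw [hg2, ← h5, ← hg2]
      exact hyT.2) (by
      refine le_trans (Nat.mul_le_mul_left _ (Finset.sum_le_sum fun j _ => ?_)) hE
      rw [← Finset.card_union_of_disjoint]
      · refine Finset.card_le_card ?_
        intro x hx
        rw [Finset.mem_union, Finset.mem_sdiff, Finset.mem_sdiff, Finset.mem_filter] at hx
        rw [Finset.mem_filter]
        refine ⟨mem_univ _, ?_⟩
        simp only [mem_univ, true_and] at hx
        tauto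
      · rw [Finset.disjoint_left]
        intro x hx hx'
        rw [Finset.mem_sdiff] at hx hx'
        exact hx.2 hx'.1) (hN.le.trans hkv) h2
  have e1 : 2 ^ (d * L) = 2 ^ ((d - 1) * L) * 2 ^ L := by
    rw [← pow_add]
    congr 1
    obtain ⟨d', rfl⟩ : ∃ d', d = d' + 1 := ⟨d - 1, by omega⟩
    rw [Nat.add_sub_cancel]
    ring
  set P : ℕ := 2 ^ ((d - 1) * L) with hP
  have hP0 : 0 < P := by positivity
  set N : ℕ := 2 ^ (d * L) with hNdef
  have s1 : r ^ 2 * v * k * N ≤ r ^ 2 * v * k * (256 * K ^ 3 * D * P) := by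
    calc r ^ 2 * v * k * N = (r ^ 2 * v * N) * k := by ring
      _ ≤ (64 * K ^ 2 * Fintype.card ι * (K * (2 * D) * P) * (r * N + lam * v)) * k :=
        Nat.mul_le_mul_right _ hsep
      _ = 128 * K ^ 3 * D * P * (Fintype.card ι * k) * (r * N + lam * v) := by ring
      _ ≤ 128 * K ^ 3 * D * P * (v * r) * (r * k + r * k) := by
        rw [hbk]
        exact Nat.mul_le_mul_left _ (Nat.add_le_add (Nat.mul_le_mul_left _ hNk) hlv)
      _ = _ := by ring
  have s2 : N ≤ 256 * K ^ 3 * D * P := Nat.le_of_mul_le_mul_left s1 (by positivity)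
  rw [e1] at s2
  have s3 : P * 2 ^ L ≤ P * (256 * K ^ 3 * D) := by
    calc P * 2 ^ L ≤ 256 * K ^ 3 * D * P := s2
      _ = _ := by ring
  have s4 := Nat.le_of_mul_le_mul_left s3 hP0
  omega

end Pool.Agent.U671.ST
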